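import Pool.Agent.KS6_85.SD.Newf

/-!
# Zeros on both sides of the critical line
-/

set_option autoImplicit false

namespace Pool.Agent.KS6_85.SD

open Finset Filter Topology Complex MeasureTheory
open Pool.Agent.R399.TW Pool.Agent.R399.TM
open scoped ComplexConjugate

/-- both sides -/
def reg2 (δ t H : ℝ) : Set ℂ :=
  {s : ℂ | 0 < s.re ∧ s.re < 1 ∧ δ ≤ |s.re - 1 / 2| ∧ |s.im - t| ≤ H}

lemma reg2_bd {δ t H : ℝ} {s : ℂ} (hs : s ∈ reg2 δ t H) : ‖s - pt (1 / 2) t‖ ≤ 1 + H := by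
  obtain ⟨s1, s2, s3, s4⟩ := hs
  refine (Complex.norm_le_abs_re_add_abs_im _).trans ?_
  rw [sub_re, sub_im, pt_re, pt_im]
  have : |s.re - 1 / 2| ≤ 1 := by
    rw [abs_le]
    constructor <;> linarith
  linarith

/-- both sides -/
theorem nz_two {L : ℂ → ℂ} (hd : Differentiable ℂ L) (hne : ∀ s : ℂ, 1 < s.re → L s ≠ 0)
    (hsym : ∀ s : ℂ, 0 < s.re → s.re < 1 / 2 →
      analyticOrderAt L s = analyticOrderAt L (1 - conj s)) {δ t H : ℝ} (hδ : 0 ≤ δ) :
    nz L (reg2 δ t H) ≤ 2 * nz L (reg δ t H) := by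
  classical
  have h0 := two_ne hne
  set A : Set ℂ := {s : ℂ | 0 < s.re ∧ s.re < 1 / 2 ∧ s.re ≤ 1 / 2 - δ ∧ |s.im - t| ≤ H} with hA
  set B : Set ℂ := reg δ t H with hB
  have hfin : ∀ S : Set ℂ, (∀ s ∈ S, 0 < s.re ∧ |s.im - t| ≤ H) →
      {s : ℂ | s ∈ S ∧ L s = 0}.Finite := by
    intro S hS
    refine (fin_zeros hd h0 (S := Metric.closedBall (pt (1 / 2) t) (1 + H)) (w := pt (1 / 2) t)
      (R := 1 + H) fun s hs => by rwa [Metric.mem_closedBall, dist_eq_norm] at hs).subset ?_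
    rintro s ⟨hs, hs2⟩
    refine ⟨?_, hs2⟩
    rw [Metric.mem_closedBall, dist_eq_norm]
    have hre : s.re ≤ 1 := by
      by_contra hcon
      exact hne s (not_le.1 hcon) hs2
    refine (Complex.norm_le_abs_re_add_abs_im _).trans ?_
    rw [sub_re, sub_im, pt_re, pt_im]
    have h1 := hS s hs
    have : |s.re - 1 / 2| ≤ 1 := by
      rw [abs_le]
      constructor <;> linarith [h1.1]
    linarith [h1.2]
  have fA := hfin A fun s hs => ⟨hs.1, hs.2.2.2⟩
  have fB := hfin B fun s hs => ⟨by linarith [hs.1], hs.2⟩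
  have f2 := hfin (reg2 δ t H) fun s hs => ⟨hs.1, hs.2.2.2⟩
  -- the left part
  have hAB : nz L A ≤ nz L B := by
    rw [nz_eq fA, nz_eq fB]
    set φ : ℂ → ℂ := fun s => 1 - conj s with hφ
    have hinj : Set.InjOn φ fA.toFinset := by
      intro x _ y _ hxy
      simp only [hφ] at hxy
      have h1 : conj x = conj y := by linear_combination -hxy
      have h2 := congrArg conj h1
      simpa using h2
    have h1 : ∑ s ∈ fA.toFinset, analyticOrderNatAt L s =
        ∑ s ∈ fA.toFinset.image φ, analyticOrderNatAt L s := by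
      rw [Finset.sum_image hinj]
      refine Finset.sum_congr rfl fun s hs => ?_
      rw [Set.Finite.mem_toFinset] at hs
      unfold analyticOrderNatAt
      rw [hsym s hs.1.1 hs.1.2.1]
    rw [h1]
    refine Finset.sum_le_sum_of_subset fun u hu => ?_
    rw [Finset.mem_image] at hu
    obtain ⟨s, hs, rfl⟩ := hu
    rw [Set.Finite.mem_toFinset] at hs ⊢
    obtain ⟨⟨s1, s2, s3, s4⟩, s5⟩ := hs
    have hre : (φ s).re = 1 - s.re := by simp [hφ]
    have him : (φ s).im = s.im := by simp [hφ]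
    refine ⟨⟨by rw [hre]; linarith, by rw [him]; exact s4⟩, ?_⟩
    have h2 : analyticOrderAt L s ≠ 0 := by
      rw [Ne, (hd.analyticAt s).analyticOrderAt_eq_zero]
      simpa using s5
    rw [hsym s s1 s2, Ne, (hd.analyticAt _).analyticOrderAt_eq_zero] at h2
    simpa using h2
  -- the union
  have h2 : nz L (reg2 δ t H) ≤ nz L A + nz L B := by
    rw [nz_eq fA, nz_eq fB, nz_eq f2]
    have hsub : f2.toFinset ⊆ fA.toFinset ∪ fB.toFinset := by
      intro s hs
      rw [Set.Finite.mem_toFinset] at hs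
      obtain ⟨⟨s1, s2, s3, s4⟩, s5⟩ := hs
      rw [Finset.mem_union, Set.Finite.mem_toFinset, Set.Finite.mem_toFinset]
      rcases lt_or_ge s.re (1 / 2) with h1 | h1
      · refine Or.inl ⟨⟨s1, h1, ?_, s4⟩, s5⟩
        rw [abs_of_neg (by linarith)] at s3
        linarith
      · refine Or.inr ⟨⟨?_, s4⟩, s5⟩
        rw [abs_of_nonneg (by linarith)] at s3
        linarith
    refine (Finset.sum_le_sum_of_subset hsub).trans ?_
    have := Finset.sum_union_inter (s₁ := fA.toFinset) (s₂ := fB.toFinset)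
      (f := fun s => analyticOrderNatAt L s)
    omega
  omega

end Pool.Agent.KS6_85.SD
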