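import Pool.Agent.KS6_85.SD.Zer

/-!
# Members with a zero in a cell to the right of the critical line
-/

set_option autoImplicit false

namespace Pool.Agent.KS6_85.SD

open Finset Filter Topology Complex MeasureTheory
open Pool.Agent.R399.TW Pool.Agent.R399.TM Pool.Agent.NH12.BA
open scoped ComplexConjugate

variable {b₁ b₂ b₃ : ℝ → ℝ}

/-- **one zero in a cell** -/
theorem one_zero (hw : Wts b₁ b₂ b₃) {m : ℕ} (hm : m ≤ 3) {c : ℕ → ℂ} (R₀ V A C₀ : ℝ) :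
    ∃ C : ℝ, 0 ≤ C ∧
    ∀ (Q : ℕ) {ι : Type} (I : Finset ι) (ψ : ι → ℕ → ℂ) (F : ι → ℂ → ℂ) (ρ : ι → ℂ) (l lam τ : ℝ),
      Dat m c R₀ V A Q I ψ F → Sqb c C₀ → l = 1 + Real.log Q → 8 ≤ lam * l → lam ≤ 1 / 3 →
      (∀ i ∈ I, ‖ρ i - pt (1 / 2 + lam) τ‖ ≤ lam / 4) → (∀ i ∈ I, F i (ρ i) = 0) →
      (I.card : ℝ) ≤ C * (2 + |τ|) ^ (2 * m) * Real.exp ((2 - lam / 20) * l) := by
  obtain ⟨C₁, hC₁, hr⟩ := right2 hw hm (c := c) R₀ V A C₀
  refine ⟨16 * C₁, by positivity, ?_⟩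
  intro Q ι I ψ F ρ l lam τ hD hSq hl hlam8 hlam3 hρ hF
  have hQ := hD.Q1
  have hq1 : (1 : ℝ) ≤ Q := by exact_mod_cast hQ
  have hlq : 0 ≤ Real.log Q := Real.log_nonneg hq1
  have hl0 : 0 < l := by linarith
  have hlam0 : 0 < lam := by
    by_contra hcon
    have : lam * l ≤ 0 := mul_nonpos_of_nonpos_of_nonneg (not_lt.1 hcon) hl0.le
    linarith
  have hl24 : 24 ≤ l := by nlinarith
  set y : ℂ := ((yl l : ℝ) : ℂ) with hy
  set s₀ : ℂ := pt (1 / 2 + lam) τ with hs₀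
  set B : ℝ := C₁ * (2 + |τ|) ^ (2 * m) * Real.exp ((2 - lam / 20) * l) with hB
  have key := disc_le I (fun i z => Gw b₁ l c (ψ i) (F i) z - y) ρ (s₀ := s₀) (r := lam / 4)
    (B := B) (by positivity) (fun i hi => ?_) hρ (fun t => ?_)
  · have h1 : ∀ i ∈ I, (1 / 4 : ℝ) ≤ ‖Gw b₁ l c (ψ i) (F i) (ρ i) - y‖ ^ 2 := by
      intro i hi
      have h2 : Gw b₁ l c (ψ i) (F i) (ρ i) = 0 := by
        unfold Gw
        rw [hF i hi, zero_mul]
      have h3 : (1 / 2 : ℝ) ≤ ‖y‖ := by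
        have h0 := half_le_yl hl0.le
        rw [hy, Complex.norm_real, Real.norm_of_nonneg (by linarith)]
        exact h0
      rw [h2, zero_sub, norm_neg]
      nlinarith
    have h2 := card_le_sum I (fun i => ‖Gw b₁ l c (ψ i) (F i) (ρ i) - y‖ ^ 2) (κ := 1 / 4)
      (fun i _ => by positivity) h1
    have h3 := h2.trans key
    calc (I.card : ℝ) = 4 * (1 / 4 * (I.card : ℝ)) := by ring
      _ ≤ 4 * (4 * B) := by gcongr
      _ = _ := by rw [hB]; ring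
  · have h1 : Differentiable ℂ (fun z => Gw b₁ l c (ψ i) (F i) z - y) := by
      have h2 : Differentiable ℂ (Mg (ψ i) (mw b₁ l c) (Xl l)) := cut_diff _ _
      exact ((hD.mem i hi).diff.mul h2).sub_const y
    exact h1.diffContOnCl
  · have h5 : ‖circleMap s₀ (2 * (lam / 4)) t - s₀‖ = lam / 2 := by
      rw [circleMap_sub_center, norm_circleMap_zero, abs_of_pos (by positivity)]
      ring
    have h6 := (Complex.abs_re_le_norm (circleMap s₀ (2 * (lam / 4)) t - s₀)).trans h5.le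
    have h7 := (Complex.abs_im_le_norm (circleMap s₀ (2 * (lam / 4)) t - s₀)).trans h5.le
    rw [sub_re, hs₀, pt_re] at h6
    rw [sub_im, hs₀, pt_im] at h7
    set z : ℂ := circleMap s₀ (2 * (lam / 4)) t with hz
    have h6' := abs_le.1 h6
    have h7' := abs_le.1 h7
    set δ' : ℝ := z.re - 1 / 2 with hδ'
    have hzz : z = pt (1 / 2 + δ') z.im := by
      apply Complex.ext <;> simp [hδ']
    have hδ1 : lam / 2 ≤ δ' := by rw [hδ']; linarith
    have hδ2 : δ' ≤ 1 / 2 := by rw [hδ']; linarith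
    have h8 := hr Q I ψ F l δ' z.im hD hSq hl (by linarith) (by nlinarith) hδ2
    rw [← hzz] at h8
    refine h8.trans ?_
    rw [hB]
    have h9 : 1 + |z.im| ≤ 2 + |τ| := by
      have h10 : |z.im| ≤ |z.im - τ| + |τ| := by
        have := abs_add_le (z.im - τ) τ
        rwa [sub_add_cancel] at this
      linarith
    have h10 : (2 - δ' / 10) * l ≤ (2 - lam / 20) * l :=
      mul_le_mul_of_nonneg_right (by linarith) hl0.le
    gcongr

/-- **one zero in a cell**, for a family -/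
theorem one_zero_fo {m N : ℕ} (hm : m ≤ 3) {L : (q : ℕ) → DirichletCharacter ℂ q → ℂ → ℂ}
    (h : Fo m N L) : ∃ C : ℝ, 0 ≤ C ∧ ∀ (Q : ℕ) (τ lam : ℝ), 1 ≤ Q →
      8 ≤ lam * (1 + Real.log Q) → lam ≤ 1 / 3 →
      (count N Q (fun q χ => ∃ ρ : ℂ, ‖ρ - pt (1 / 2 + lam) τ‖ ≤ lam / 4 ∧ L q χ ρ = 0) : ℝ) ≤
        C * (2 + |τ|) ^ (2 * m) * Real.exp ((2 - lam / 20) * (1 + Real.log Q)) := by
  classical
  obtain ⟨c, R₀, V, C₀, hR₀, hV, hL, hC₀, hmem⟩ := h
  set A : ℝ := max C₀ 0 with hA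
  have hA0 : 0 ≤ A := le_max_right _ _
  have hCA : C₀ ≤ A := le_max_left _ _
  obtain ⟨b₁, b₂, b₃, hw⟩ := exists_wts
  obtain ⟨C, hC, hone⟩ := one_zero hw hm (c := c) R₀ V A C₀
  refine ⟨C, hC, ?_⟩
  intro Q τ lam hQ hlam8 hlam3
  set S : (q : ℕ) → DirichletCharacter ℂ q → Prop := fun q χ =>
    ∃ ρ : ℂ, ‖ρ - pt (1 / 2 + lam) τ‖ ≤ lam / 4 ∧ L q χ ρ = 0 with hS
  have hcount := count_eq N Q S
  have hcountle := count_le N Q S
  rw [hcount] at hcountle ⊢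
  set J := (idx N Q).filter (fun i => S i.1 i.2) with hJ
  have hch : ∀ i : (Σ q : ℕ, DirichletCharacter ℂ q), ∃ (F : ℂ → ℂ) (ρ : ℂ), i ∈ J →
      Mem c (R₀ * (Q : ℝ) ^ m) V m (chs i.2) F ∧ ‖ρ - pt (1 / 2 + lam) τ‖ ≤ lam / 4 ∧
      F ρ = 0 := by
    intro i
    by_cases hi : i ∈ J
    · obtain ⟨h1, ρ, hρ, hρ0⟩ := Finset.mem_filter.1 hi
      rw [mem_idx] at h1
      obtain ⟨-, F, hF, E, hE, hFE⟩ := hmem i.1 i.2 h1.1.1 h1.2.1 h1.2.2
      have hq : ((i.1 : ℕ) : ℝ) ≤ Q := by exact_mod_cast h1.1.2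
      exact ⟨F, ρ, fun _ => ⟨hF.mono hV (by gcongr), hρ, by rw [hFE, hρ0, zero_mul]⟩⟩
    · exact ⟨0, 0, fun h => absurd h hi⟩
  choose F ρ hFt using hch
  have hD : Dat m c R₀ V A Q J (fun i => chs i.2) F := by
    refine ⟨hQ, hR₀, hV, hA0, hL, fun θ h0 h1 n => ?_, (ls_idx N hQ).mono (Finset.filter_subset _ _),
      fun i hi => (hFt i hi).1, hcountle⟩
    refine (SB_of hC₀ h0 h1 n).trans ?_
    have h2 : Real.exp (2 * C₀) ≤ Real.exp (2 * A) := Real.exp_le_exp.2 (by linarith)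
    have h3 : θ ^ (-C₀) ≤ θ ^ (-A) :=
      Real.rpow_le_rpow_of_exponent_ge h0 h1 (by linarith)
    gcongr
  exact hone Q J (fun i => chs i.2) F ρ _ lam τ hD hC₀ rfl hlam8 hlam3
    (fun i hi => (hFt i hi).2.1) (fun i hi => (hFt i hi).2.2)

/-- sums and tails -/
theorem sum_le_tail {ι : Type} (J : Finset ι) (f : ι → ℕ) {B s : ℝ} {K : ℕ} (hB : 0 ≤ B)
    (hs : 0 < s)
    (h : ∀ k : ℕ, K ≤ k → (((J.filter fun i => k ≤ f i).card : ℕ) : ℝ) ≤ B * Real.exp (-(s * k))) :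
    ∑ i ∈ J, (f i : ℝ) ≤ K * (((J.filter fun i => 1 ≤ f i).card : ℕ) : ℝ) +
      B * Real.exp (-(s * K)) / s := by
  classical
  obtain ⟨M, hM⟩ : ∃ M : ℕ, ∀ i ∈ J, f i ≤ M := ⟨J.sup f, fun i hi => Finset.le_sup (f := f) hi⟩
  have h1 : ∀ i ∈ J, (f i : ℝ) = ∑ k ∈ range (M + K), if k + 1 ≤ f i then (1 : ℝ) else 0 := by
    intro i hi
    have h2 := hM i hi
    rw [← Finset.sum_filter, Finset.sum_const, nsmul_eq_mul, mul_one]
    have h3 : (range (M + K)).filter (fun k => k + 1 ≤ f i) = range (f i) := by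
      ext k
      rw [Finset.mem_filter, Finset.mem_range, Finset.mem_range]
      omega
    rw [h3, Finset.card_range]
  rw [Finset.sum_congr rfl h1, Finset.sum_comm]
  have h2 : ∀ k ∈ range (M + K), ∑ i ∈ J, (if k + 1 ≤ f i then (1 : ℝ) else 0) =
      (((J.filter fun i => k + 1 ≤ f i).card : ℕ) : ℝ) := by
    intro k _
    rw [← Finset.sum_filter, Finset.sum_const, nsmul_eq_mul, mul_one]
  rw [Finset.sum_congr rfl h2, add_comm M K, Finset.range_eq_Ico,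
    ← Finset.sum_Ico_consecutive _ (Nat.zero_le K) (by omega : K ≤ K + M)]
  refine add_le_add ?_ ?_
  · have h4 : ∀ k ∈ Ico 0 K, (((J.filter fun i => k + 1 ≤ f i).card : ℕ) : ℝ) ≤
        (((J.filter fun i => 1 ≤ f i).card : ℕ) : ℝ) := fun k _ => by
      have h5 : (J.filter fun i => k + 1 ≤ f i) ⊆ (J.filter fun i => 1 ≤ f i) := by
        intro i hi
        rw [Finset.mem_filter] at hi ⊢
        exact ⟨hi.1, by omega⟩
      exact_mod_cast Finset.card_le_card h5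
    refine (Finset.sum_le_sum h4).trans (le_of_eq ?_)
    rw [Finset.sum_const, Nat.card_Ico, nsmul_eq_mul, Nat.sub_zero]
  · rw [Finset.sum_Ico_eq_sum_range, Nat.add_sub_cancel_left]
    set x : ℝ := Real.exp (-s) with hx
    have hx0 : 0 < x := Real.exp_pos _
    have hx1 : x < 1 := by
      rw [hx, ← Real.exp_zero]
      exact Real.exp_lt_exp.2 (by linarith)
    have h5 : ∀ j ∈ range M, (((J.filter fun i => K + j + 1 ≤ f i).card : ℕ) : ℝ) ≤
        B * Real.exp (-(s * K)) * x * x ^ j := by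
      intro j _
      refine (h (K + j + 1) (by omega)).trans (le_of_eq ?_)
      have h6 : Real.exp (-(s * ((K + j + 1 : ℕ) : ℝ))) =
          Real.exp (-(s * K)) * (x * x ^ j) := by
        rw [hx, ← pow_succ', ← Real.exp_nat_mul, ← Real.exp_add]
        congr 1
        push_cast
        ring
      rw [h6]
      ring
    refine (Finset.sum_le_sum h5).trans ?_
    rw [← Finset.mul_sum]
    have h6 : ∑ j ∈ range M, x ^ j ≤ (1 - x)⁻¹ :=
      sum_le_hasSum (range M) (fun n _ => by positivity) (hasSum_geometric_of_lt_one hx0.le hx1)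
    have h7 : x * (1 - x)⁻¹ ≤ 1 / s := by
      rw [← div_eq_mul_inv, div_le_div_iff₀ (by linarith) hs]
      have h8 := Real.add_one_le_exp s
      have h9 : x * Real.exp s = 1 := by
        rw [hx, ← Real.exp_add, neg_add_cancel, Real.exp_zero]
      nlinarith
    calc B * Real.exp (-(s * K)) * x * ∑ j ∈ range M, x ^ j
        ≤ B * Real.exp (-(s * K)) * x * (1 - x)⁻¹ := by gcongr
      _ = B * Real.exp (-(s * K)) * (x * (1 - x)⁻¹) := by ring
      _ ≤ B * Real.exp (-(s * K)) * (1 / s) := by gcongr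
      _ = _ := by ring

end Pool.Agent.KS6_85.SD
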