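import Pool.Agent.KS6_85.SD.Near

/-!
# The zeros far from the critical line and the density theorem
-/

set_option autoImplicit false

namespace Pool.Agent.KS6_85.SD

open Finset Filter Topology Complex MeasureTheory
open Pool.Agent.R399.TW Pool.Agent.R399.TM Pool.Agent.NH12.BA
open scoped ComplexConjugate

/-- the pointwise bound for the order -/
theorem ord_bd' {c : ℕ → ℂ} (m : ℕ) {R₀ V : ℝ} (hR₀ : 0 ≤ R₀) (hV : 0 ≤ V) (hL : Lin c) :
    ∃ C : ℝ, 1 ≤ C ∧ ∀ (Q : ℕ) (ψ : ℕ → ℂ) (F : ℂ → ℂ) (γ : ℝ) (k : ℕ), 1 ≤ Q →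
      Mem c (R₀ * (Q : ℝ) ^ m) V m ψ F →
      Dv F k (pt (5 / 4) γ) (76 / 100) →
      (5 / 4 : ℝ) ^ k ≤ C * (Q : ℝ) ^ m * (3 + |γ|) ^ m := by
  have hB := Bs_nn c (3 / 2)
  have hB' := Bs_nn c (5 / 4)
  set K : ℝ := Real.exp 4 * Real.exp ((m : ℝ) ^ 2) with hK
  have hK1 : 1 ≤ K := by
    rw [hK]
    exact one_le_mul_of_one_le_of_one_le (Real.one_le_exp (by norm_num))
      (Real.one_le_exp (by positivity))
  set A₁ : ℝ := Bs c (3 / 2) with hA₁
  refine ⟨1 + 2 * Bs c (5 / 4) * (K * ((1 + R₀ * V ^ m * A₁) * (1 + A₁))), ?_, ?_⟩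
  · have : 0 ≤ 2 * Bs c (5 / 4) * (K * ((1 + R₀ * V ^ m * A₁) * (1 + A₁))) := by positivity
    linarith
  intro Q ψ F γ k hQ hM hk
  have hq1 : (1 : ℝ) ≤ Q := by exact_mod_cast hQ
  set A₀ : ℝ := R₀ * (Q : ℝ) ^ m * V ^ m * A₁ with hA₀
  have hA₀0 : 0 ≤ A₀ := by positivity
  have hpw : ∀ x p : ℝ, 0 ≤ x → 0 ≤ p → p ≤ 1 → x ^ p ≤ 1 + x := by
    intro x p hx hp0 hp1
    calc x ^ p ≤ (1 + x) ^ p := Real.rpow_le_rpow hx (by linarith) hp0
      _ ≤ (1 + x) ^ (1 : ℝ) := Real.rpow_le_rpow_of_exponent_le (by linarith) hp1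
      _ = 1 + x := Real.rpow_one _
  -- the upper bound
  have hup : ∀ s : ℂ, -1 / 2 ≤ s.re → ‖F s‖ ≤ K * (1 + |s.im|) ^ m * ((1 + A₀) * (1 + A₁)) := by
    intro s hs
    have h1t : (1 : ℝ) ≤ (1 + |s.im|) ^ m := one_le_pow₀ (by linarith [abs_nonneg s.im])
    rcases le_total s.re (3 / 2) with h3 | h3
    · have key := three ({()} : Finset Unit) (fun _ => F) (a := -1 / 2) (b := 3 / 2) (A₀ := A₀)
        (A₁ := A₁) (n := m) (s := s) (by norm_num) (by norm_num) (by norm_num)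
        (fun _ _ => hM.diff) (fun _ _ => ?_) hA₀0 hB (fun t => ?_) (fun t => ?_) hs h3
      · rw [Finset.sum_singleton] at key
        set θ : ℝ := (s.re - -1 / 2) / (3 / 2 - -1 / 2) with hθ
        have hθ0 : 0 ≤ θ := div_nonneg (by linarith) (by norm_num)
        have hθ1 : θ ≤ 1 := by
          rw [hθ, div_le_one (by norm_num)]
          linarith
        have h4 := abs_le_of_sq_le_sq' key (by positivity)
        refine h4.2.trans ?_
        have h5 := hpw A₀ (1 - θ) hA₀0 (by linarith) (by linarith)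
        have h6 := hpw A₁ θ hB hθ0 hθ1
        gcongr
      · obtain ⟨A', C', h'⟩ := hM.gr
        exact ⟨A', C', fun z hz => h' z ⟨hz.1, hz.2.trans (by norm_num)⟩⟩
      · rw [Finset.sum_singleton]
        have h5 := left_F hL hM t
        have h6 : R₀ * (Q : ℝ) ^ m * (V * (1 + |t|)) ^ m * Bs c (3 / 2) = A₀ * (1 + |t|) ^ m := by
          rw [hA₀, mul_pow V]
          ring
        rw [h6] at h5
        gcongr
      · rw [Finset.sum_singleton]
        have h5 : ‖F (pt (3 / 2) t)‖ ≤ A₁ := by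
          rw [hM.ser _ (by rw [pt_re]; norm_num)]
          exact ls_le hL hM.le (norm_E_le c) (by norm_num) (by rw [pt_re])
        have h6 : (1 : ℝ) ≤ (1 + |t|) ^ m := one_le_pow₀ (by linarith [abs_nonneg t])
        have h7 : ‖F (pt (3 / 2) t)‖ ≤ A₁ * (1 + |t|) ^ m :=
          h5.trans (le_mul_of_one_le_right hB h6)
        gcongr
    · have h5 : ‖F s‖ ≤ A₁ := by
        rw [hM.ser _ (by linarith)]
        exact ls_le hL hM.le (norm_E_le c) (by norm_num) h3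
      have h6 : A₁ ≤ (1 + A₀) * (1 + A₁) := by nlinarith
      have h7 : (1 : ℝ) ≤ K * (1 + |s.im|) ^ m := one_le_mul_of_one_le_of_one_le hK1 h1t
      have h8 : 0 ≤ (1 + A₀) * (1 + A₁) := by positivity
      exact h5.trans (h6.trans (le_mul_of_one_le_left h8 h7))
  set M : ℝ := K * (3 + |γ|) ^ m * ((1 + A₀) * (1 + A₁)) with hMd
  have hM0 : 0 ≤ M := by positivity
  have key := dv_gen ({()} : Finset Unit) (fun _ => F)
    (s₁ := pt (5 / 4) γ) (r := 7 / 8) (a := 76 / 100) (b := 95 / 100) (B := M ^ 2) (k := k)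
    (by norm_num) (by norm_num) (by norm_num) (by norm_num) (fun _ _ => ?_) (fun t => ?_)
  · rw [Finset.sum_singleton] at key
    -- the lower bound
    have hlow : 1 ≤ ‖F (pt (5 / 4) γ)‖ * Bs c (5 / 4) := by
      have hre : 1 < (pt (5 / 4) γ).re := by rw [pt_re]; norm_num
      have h1 := (hL.twist hM.le).inv hre
      have h2 : F (pt (5 / 4) γ) = LSeries (E fun n => ψ n * c n) (pt (5 / 4) γ) := by
        rw [hM.ser _ hre, tw_E hM.one hM.mul]
      have h3 : (fun n => -(ψ n * c n)) = fun n => ψ n * (-c n) := by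
        funext n
        ring
      rw [← h2, h3, ← tw_E hM.one hM.mul (κ := fun n => -c n)] at h1
      have h4 : ‖LSeries (tw ψ (E fun n => -c n)) (pt (5 / 4) γ)‖ ≤ Bs c (5 / 4) :=
        ls_le hL hM.le (norm_neg_E_le c) (by norm_num) (by rw [pt_re])
      have h5 := congrArg norm h1
      rw [norm_mul, norm_one] at h5
      rw [← h5]
      gcongr
    have h1 : ‖F (pt (5 / 4) γ)‖ ≤ 2 * M * (4 / 5) ^ k := by
      have h2 : 4 * (M ^ 2 * ((76 / 100 / (95 / 100)) ^ k) ^ 2) = (2 * M * (4 / 5) ^ k) ^ 2 := by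
        norm_num
        ring
      rw [h2] at key
      exact (abs_le_of_sq_le_sq' key (by positivity)).2
    have h2 : 1 ≤ 2 * M * (4 / 5) ^ k * Bs c (5 / 4) :=
      hlow.trans (mul_le_mul_of_nonneg_right h1 hB')
    have h3 : (5 / 4 : ℝ) ^ k * (4 / 5) ^ k = 1 := by
      rw [← mul_pow]
      norm_num
    have h4 : (5 / 4 : ℝ) ^ k ≤ 2 * M * Bs c (5 / 4) := by
      calc (5 / 4 : ℝ) ^ k = (5 / 4 : ℝ) ^ k * 1 := by ring
        _ ≤ (5 / 4 : ℝ) ^ k * (2 * M * (4 / 5) ^ k * Bs c (5 / 4)) := by gcongr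
        _ = 2 * M * Bs c (5 / 4) * ((5 / 4 : ℝ) ^ k * (4 / 5) ^ k) := by ring
        _ = _ := by rw [h3, mul_one]
    refine h4.trans ?_
    have hQm : (1 : ℝ) ≤ (Q : ℝ) ^ m := one_le_pow₀ hq1
    have h5 : 1 + A₀ ≤ (1 + R₀ * V ^ m * A₁) * (Q : ℝ) ^ m := by
      rw [hA₀]
      have : 0 ≤ R₀ * V ^ m * A₁ := by positivity
      nlinarith
    have hγ : 0 ≤ (3 + |γ|) ^ m := by positivity
    have h6 : M ≤ K * (3 + |γ|) ^ m * (((1 + R₀ * V ^ m * A₁) * (Q : ℝ) ^ m) * (1 + A₁)) := by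
      rw [hMd]
      gcongr
    have h7 : 0 ≤ (Q : ℝ) ^ m * (3 + |γ|) ^ m := by positivity
    calc 2 * M * Bs c (5 / 4)
        ≤ 2 * (K * (3 + |γ|) ^ m * (((1 + R₀ * V ^ m * A₁) * (Q : ℝ) ^ m) * (1 + A₁))) *
          Bs c (5 / 4) := by gcongr
      _ = (2 * Bs c (5 / 4) * (K * ((1 + R₀ * V ^ m * A₁) * (1 + A₁)))) *
          ((Q : ℝ) ^ m * (3 + |γ|) ^ m) := by ring
      _ ≤ (1 + 2 * Bs c (5 / 4) * (K * ((1 + R₀ * V ^ m * A₁) * (1 + A₁)))) *
          ((Q : ℝ) ^ m * (3 + |γ|) ^ m) := by gcongr; linarith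
      _ = _ := by ring
  · exact hk
  · rw [Finset.sum_singleton]
    have h5 : ‖circleMap (pt (5 / 4) γ) (2 * (7 / 8)) t - pt (5 / 4) γ‖ = 7 / 4 := by
      rw [circleMap_sub_center, norm_circleMap_zero, abs_of_pos (by norm_num)]
      norm_num
    have h6 := (Complex.abs_re_le_norm
      (circleMap (pt (5 / 4) γ) (2 * (7 / 8)) t - pt (5 / 4) γ)).trans h5.le
    have h7 := (Complex.abs_im_le_norm
      (circleMap (pt (5 / 4) γ) (2 * (7 / 8)) t - pt (5 / 4) γ)).trans h5.le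
    rw [sub_re, pt_re] at h6
    rw [sub_im, pt_im] at h7
    have h8 := hup (circleMap (pt (5 / 4) γ) (2 * (7 / 8)) t) (by
      have := (abs_le.1 h6).1
      linarith)
    have h9 : 1 + |(circleMap (pt (5 / 4) γ) (2 * (7 / 8)) t).im| ≤ 3 + |γ| := by
      have := abs_add_le ((circleMap (pt (5 / 4) γ) (2 * (7 / 8)) t).im - γ) γ
      rw [sub_add_cancel] at this
      linarith
    have h10 : ‖F (circleMap (pt (5 / 4) γ) (2 * (7 / 8)) t)‖ ≤ M := by
      refine h8.trans ?_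
      rw [hMd]
      gcongr
    gcongr


/-- the zeros of one member -/
theorem member_bd {m N : ℕ} {L : (q : ℕ) → DirichletCharacter ℂ q → ℂ → ℂ}
    (h : Fo m N L) : ∃ C : ℝ, 0 ≤ C ∧ ∀ (Q : ℕ) (t H : ℝ) (S : Set ℂ), 1 ≤ Q → 0 ≤ H → H ≤ 1 →
      (∀ s ∈ S, 1 / 2 ≤ s.re ∧ |s.im - t| ≤ H) → ∀ i ∈ idx N Q,
      (nz (L i.1 i.2) S : ℝ) ≤ C * ((1 + Real.log Q) * (2 + |t|)) := by
  classical
  have h' := h
  obtain ⟨c, R₀, V, C₀, hR₀, hV, hL, hC₀, hmem⟩ := h
  obtain ⟨C, hC, hord⟩ := ord_bd' m hR₀ hV hL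
  have hlC : 0 ≤ Real.log C := Real.log_nonneg hC
  refine ⟨23 * (5 * (Real.log C + 5 * m)), by positivity, ?_⟩
  intro Q t H S hQ hH0 hH1 hS i hi
  obtain ⟨hd, hne⟩ := fo_mem h' hi
  have hq1 : (1 : ℝ) ≤ Q := by exact_mod_cast hQ
  have hlq : 0 ≤ Real.log Q := Real.log_nonneg hq1
  rw [mem_idx] at hi
  obtain ⟨-, F, hF, E, hE, hFE⟩ := hmem i.1 i.2 hi.1.1 hi.2.1 hi.2.2
  have hq : ((i.1 : ℕ) : ℝ) ≤ Q := by exact_mod_cast hi.1.2
  have hF' : Mem c (R₀ * (Q : ℝ) ^ m) V m (chs i.2) F := hF.mono hV (by gcongr)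
  set A : Finset ℤ := Icc (-(⌊H / (1 / 10)⌋ + 1)) (⌊H / (1 / 10)⌋ + 1) with hA
  have h1 := nz_balls hd (two_ne hne) A (fun n => pt (5 / 4) (t + (n : ℝ) * (1 / 10)))
    (fun _ => 76 / 100) (S := S) fun s hs hs0 => by
      obtain ⟨s1, s2⟩ := hS s hs
      have s3 : s.re ≤ 1 := by
        by_contra hcon
        exact hne s (not_le.1 hcon) hs0
      obtain ⟨n, hn, hn2⟩ := grid_near (show (0 : ℝ) < 1 / 10 by norm_num) s2
      refine ⟨n, hn, ?_⟩
      have h2 : ‖s - pt (5 / 4) (t + (n : ℝ) * (1 / 10))‖ ^ 2 ≤ (76 / 100) ^ 2 := by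
        rw [← Complex.normSq_eq_norm_sq, Complex.normSq_apply, sub_re, sub_im, pt_re, pt_im]
        have h3 := abs_le.1 hn2
        nlinarith
      exact le_of_sq_le_sq h2 (by norm_num)
  have h2 : ∀ n ∈ A, (nz (L i.1 i.2) (Metric.closedBall (pt (5 / 4) (t + (n : ℝ) * (1 / 10)))
      (76 / 100)) : ℝ) ≤ 5 * (Real.log C + 5 * m) * ((1 + Real.log Q) * (2 + |t|)) := by
    intro n hn
    set γ : ℝ := t + (n : ℝ) * (1 / 10) with hγ
    set k : ℕ := nz (L i.1 i.2) (Metric.closedBall (pt (5 / 4) γ) (76 / 100)) with hk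
    have hdv : Dv (L i.1 i.2) k (pt (5 / 4) γ) (76 / 100) :=
      dv_nz hd (two_ne hne) fun s hs => by rwa [Metric.mem_closedBall, dist_eq_norm] at hs
    have h3 := hord Q (chs i.2) F γ k hQ hF' (hdv.mul hE hFE)
    have h43 : (1 : ℝ) / 5 ≤ Real.log (5 / 4) := by
      have := Real.one_sub_inv_le_log_of_pos (show (0 : ℝ) < 5 / 4 by norm_num)
      norm_num at this ⊢
      linarith
    have h4 : (k : ℝ) * Real.log (5 / 4) ≤ Real.log C + m * Real.log Q +
        m * Real.log (3 + |γ|) := by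
      rw [← Real.log_pow]
      have hg : 0 < 3 + |γ| := by positivity
      have e1 : Real.log C + m * Real.log Q + m * Real.log (3 + |γ|) =
          Real.log (C * (Q : ℝ) ^ m * (3 + |γ|) ^ m) := by
        rw [Real.log_mul (by positivity) (by positivity), Real.log_mul (by positivity)
          (by positivity), Real.log_pow, Real.log_pow]
      rw [e1]
      exact Real.log_le_log (by positivity) h3
    have hk0 : (0 : ℝ) ≤ k := Nat.cast_nonneg k
    have h5 : (k : ℝ) ≤ 5 * (Real.log C + m * Real.log Q + m * Real.log (3 + |γ|)) := by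
      nlinarith
    have h6 : Real.log (3 + |γ|) ≤ 4 + |t| := by
      have h7 := grid_im (t := t) (show (0 : ℝ) < 1 / 10 by norm_num) hH0 hn
      have h8 := Real.log_le_sub_one_of_pos (show 0 < 3 + |γ| by positivity)
      linarith
    have hm0 : (0 : ℝ) ≤ m := Nat.cast_nonneg m
    have ht0 := abs_nonneg t
    have h7 : Real.log C ≤ Real.log C * ((1 + Real.log Q) * (2 + |t|)) := by
      refine le_mul_of_one_le_right hlC ?_
      exact one_le_mul_of_one_le_of_one_le (by linarith) (by linarith)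
    have h8 : m * Real.log Q + m * Real.log (3 + |γ|) ≤
        5 * m * ((1 + Real.log Q) * (2 + |t|)) := by
      have h9 : Real.log Q + Real.log (3 + |γ|) ≤ 5 * ((1 + Real.log Q) * (2 + |t|)) := by
        nlinarith [mul_nonneg hlq ht0]
      calc m * Real.log Q + m * Real.log (3 + |γ|) = m * (Real.log Q + Real.log (3 + |γ|)) := by
            ring
        _ ≤ m * (5 * ((1 + Real.log Q) * (2 + |t|))) := by gcongr
        _ = _ := by ring
    calc (k : ℝ) ≤ 5 * (Real.log C + m * Real.log Q + m * Real.log (3 + |γ|)) := h5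
      _ = 5 * (Real.log C + (m * Real.log Q + m * Real.log (3 + |γ|))) := by ring
      _ ≤ 5 * (Real.log C * ((1 + Real.log Q) * (2 + |t|)) +
          5 * m * ((1 + Real.log Q) * (2 + |t|))) := by gcongr
      _ = _ := by ring
  have h3 : (nz (L i.1 i.2) S : ℝ) ≤ ∑ n ∈ A, (nz (L i.1 i.2)
      (Metric.closedBall (pt (5 / 4) (t + (n : ℝ) * (1 / 10))) (76 / 100)) : ℝ) := by
    exact_mod_cast h1
  refine (h3.trans (Finset.sum_le_sum h2)).trans ?_
  rw [Finset.sum_const, nsmul_eq_mul]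
  have hnum : ((A.card : ℕ) : ℝ) ≤ 23 := by
    have := card_Icc_sym (x := H / (1 / 10)) (by positivity)
    refine this.trans ?_
    have : H / (1 / 10) ≤ 10 := by
      rw [div_le_iff₀ (by norm_num)]
      linarith
    linarith
  have : 0 ≤ Real.log Q := hlq
  calc ((A.card : ℕ) : ℝ) * (5 * (Real.log C + 5 * m) * ((1 + Real.log Q) * (2 + |t|)))
      ≤ 23 * (5 * (Real.log C + 5 * m) * ((1 + Real.log Q) * (2 + |t|))) := by gcongr
    _ = _ := by ring

end Pool.Agent.KS6_85.SD
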