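import Pool.Agent.KS6_85.SD.Far

/-!
# The density theorem near the critical line, without loss
-/

set_option autoImplicit false

namespace Pool.Agent.KS6_85.SD

open Finset Filter Topology Complex MeasureTheory
open Pool.Agent.R399.TW Pool.Agent.R399.TM Pool.Agent.NH12.BA
open scoped ComplexConjugate

/-- the region -/
def reg (δ t H : ℝ) : Set ℂ := {s : ℂ | 1 / 2 + δ ≤ s.re ∧ |s.im - t| ≤ H}

lemma ex2_le {m : ℕ} (hm : m ≤ 3) {δ : ℝ} (h0 : 0 ≤ δ) (h1 : δ ≤ 1 / 2) :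
    ex2 m δ ≤ 2 - 2 / 3 * δ := by
  have hm' : (m : ℝ) ≤ 3 := by exact_mod_cast hm
  unfold ex2
  rw [if_pos hm, div_le_iff₀ (by linarith)]
  have h2 : ((m : ℝ) + 1) * δ ≤ 4 * δ := by nlinarith
  have h3 : 2 * (1 - 2 * δ) * (3 + ((m : ℝ) + 1) * δ) ≤ 2 * (1 - 2 * δ) * (3 + 4 * δ) := by
    gcongr
    linarith
  nlinarith

/-- powers of the logarithm -/
lemma log_pow_le (b c : ℝ) (hc : 0 < c) : ∃ K : ℝ, 1 ≤ K ∧ ∀ l : ℝ, 1 ≤ l →
    l ^ b ≤ K * Real.exp (c * l) := by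
  set n : ℕ := ⌈b⌉₊ with hn
  have hbn : b ≤ n := Nat.le_ceil _
  refine ⟨max 1 (n.factorial / c ^ n), le_max_left _ _, fun l hl => ?_⟩
  have h1 : l ^ b ≤ l ^ n := by
    rw [← Real.rpow_natCast]
    exact Real.rpow_le_rpow_of_exponent_le hl hbn
  have h2 : (c * l) ^ n / n.factorial ≤ Real.exp (c * l) :=
    Real.pow_div_factorial_le_exp _ (by positivity) n
  have h3 : l ^ n ≤ n.factorial / c ^ n * Real.exp (c * l) := by
    rw [mul_pow] at h2
    have h4 : (0 : ℝ) < n.factorial := by exact_mod_cast Nat.factorial_pos n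
    have h5 : (0 : ℝ) < c ^ n := by positivity
    rw [div_le_iff₀ h4] at h2
    rw [div_mul_eq_mul_div, le_div_iff₀ h5]
    linarith
  refine h1.trans (h3.trans ?_)
  have := le_max_right 1 (n.factorial / c ^ n)
  gcongr

/-- the sum far from the critical line -/
theorem far_sum {m N : ℕ} (hm : m ≤ 3) {L : (q : ℕ) → DirichletCharacter ℂ q → ℂ → ℂ}
    (h : Fo m N L) (h' : Fm m N L) : ∃ C : ℝ, 0 ≤ C ∧ ∀ (Q : ℕ) (t H δ : ℝ), 1 ≤ Q → 0 ≤ H →
      H ≤ 1 → 1 / 125 ≤ δ → δ ≤ 1 / 2 →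
      ∑ i ∈ idx N Q, (nz (L i.1 i.2) (reg δ t H) : ℝ) ≤
        C * (2 + |t|) ^ (2 * m + 2) *
          ((Q : ℝ) ^ 2 * Real.exp (-(δ * (1 + Real.log Q)) / 40)) := by
  classical
  obtain ⟨C₁, hC₁, hmb⟩ := member_bd h
  obtain ⟨C₂, B, hC₂, hB, hd⟩ := dens2 h'
  obtain ⟨K, hK, hlog⟩ := log_pow_le (B + 1) (1 / 300) (by norm_num)
  refine ⟨C₁ * C₂ * K * Real.exp 1, by positivity, ?_⟩
  intro Q t H δ hQ hH0 hH1 hδ1 hδ2
  have hq1 : (1 : ℝ) ≤ Q := by exact_mod_cast hQ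
  have hq0 : (0 : ℝ) < Q := by linarith
  have hlq : 0 ≤ Real.log Q := Real.log_nonneg hq1
  set l : ℝ := 1 + Real.log Q with hl
  have hl1 : 1 ≤ l := by linarith
  have hl0 : 0 < l := by linarith
  have ht0 := abs_nonneg t
  set J := (idx N Q).filter (fun i => Far (L i.1 i.2) δ (1 + |t|)) with hJ
  have h1 : ∀ i ∈ idx N Q, (nz (L i.1 i.2) (reg δ t H) : ℝ) ≤
      if i ∈ J then C₁ * (l * (2 + |t|)) else 0 := by
    intro i hi
    by_cases hiJ : i ∈ J
    · rw [if_pos hiJ]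
      exact hmb Q t H (reg δ t H) hQ hH0 hH1 (fun s hs => ⟨by linarith [hs.1], hs.2⟩) i hi
    · rw [if_neg hiJ]
      have h2 : nz (L i.1 i.2) (reg δ t H) = 0 := by
        by_contra hcon
        obtain ⟨s, ⟨s1, s2⟩, s3⟩ := exists_of_nz (Nat.one_le_iff_ne_zero.2 hcon)
        apply hiJ
        rw [hJ, Finset.mem_filter]
        refine ⟨hi, s, by linarith, ?_, ?_, s3⟩
        · have := abs_add_le (s.im - t) t
          rw [sub_add_cancel] at this
          linarith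
        · rw [abs_of_nonneg (by linarith)]
          linarith
      rw [h2]
      simp
  refine (Finset.sum_le_sum h1).trans ?_
  have hJs : (idx N Q).filter (fun i => i ∈ J) = J := by
    ext i
    simp only [hJ, Finset.mem_filter]
    tauto
  rw [← Finset.sum_filter, hJs, Finset.sum_const, nsmul_eq_mul]
  have h2 := hd Q δ (1 + |t|) hQ (by linarith) hδ2 (by linarith)
  rw [count_eq] at h2
  have e1 : (1 : ℝ) + (1 + |t|) = 2 + |t| := by ring
  rw [e1] at h2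
  have h3 : (Q : ℝ) ^ (ex2 m δ) ≤ (Q : ℝ) ^ 2 * Real.exp (-(2 / 3 * δ) * Real.log Q) := by
    have e2 : (Q : ℝ) ^ 2 = Real.exp (2 * Real.log Q) := by
      rw [mul_comm, Real.exp_mul, Real.exp_log hq0]
      norm_num
    rw [e2, ← Real.exp_add, Real.rpow_def_of_pos hq0]
    apply Real.exp_le_exp.2
    have := ex2_le hm (show 0 ≤ δ by linarith) hδ2
    nlinarith
  have h4 : l ^ (B + 1) = l ^ B * l := by rw [Real.rpow_add hl0, Real.rpow_one]
  have h5 : l ^ (B + 1) * Real.exp (-(2 / 3 * δ) * Real.log Q) ≤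
      K * Real.exp 1 * Real.exp (-(δ * l) / 40) := by
    calc l ^ (B + 1) * Real.exp (-(2 / 3 * δ) * Real.log Q)
        ≤ (K * Real.exp (1 / 300 * l)) * Real.exp (-(2 / 3 * δ) * Real.log Q) := by
          gcongr
          exact hlog l hl1
      _ = K * Real.exp (1 / 300 * l + -(2 / 3 * δ) * Real.log Q) := by
          rw [Real.exp_add]; ring
      _ ≤ K * Real.exp (1 + -(δ * l) / 40) := by
          have hK0 : 0 ≤ K := by linarith
          refine mul_le_mul_of_nonneg_left (Real.exp_le_exp.2 ?_) hK0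
          have e3 : Real.log Q = l - 1 := by rw [hl]; ring
          rw [e3]
          nlinarith
      _ = _ := by rw [Real.exp_add]; ring
  have hcard : (J.card : ℝ) ≤ C₂ * (2 + |t|) ^ (2 * m + 1) * l ^ B * (Q : ℝ) ^ (ex2 m δ) := h2
  calc (J.card : ℝ) * (C₁ * (l * (2 + |t|)))
      ≤ (C₂ * (2 + |t|) ^ (2 * m + 1) * l ^ B *
          ((Q : ℝ) ^ 2 * Real.exp (-(2 / 3 * δ) * Real.log Q))) * (C₁ * (l * (2 + |t|))) := by
        refine mul_le_mul_of_nonneg_right (hcard.trans ?_) (by positivity)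
        gcongr
    _ = C₁ * C₂ * (2 + |t|) ^ (2 * m + 2) * (Q : ℝ) ^ 2 *
          (l ^ (B + 1) * Real.exp (-(2 / 3 * δ) * Real.log Q)) := by
        rw [h4, pow_succ (2 + |t|) (2 * m + 1)]
        ring
    _ ≤ C₁ * C₂ * (2 + |t|) ^ (2 * m + 2) * (Q : ℝ) ^ 2 *
          (K * Real.exp 1 * Real.exp (-(δ * l) / 40)) := by gcongr
    _ = _ := by ring

/-- the sum over the zone next to the critical line -/
theorem zone_sum {m N : ℕ} (hm : m ≤ 3) {L : (q : ℕ) → DirichletCharacter ℂ q → ℂ → ℂ}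
    (h : Fo m N L) : ∃ C : ℝ, 0 ≤ C ∧ ∀ (Q : ℕ) (t H : ℝ), 1 ≤ Q → 0 ≤ H → H ≤ 1 →
      3200 ≤ 1 + Real.log Q →
      ∑ i ∈ idx N Q, (nz (L i.1 i.2) (slab 0 (16 / (1 + Real.log Q)) t H) : ℝ) ≤
        C * (2 + |t|) * (1 + H * (1 + Real.log Q)) * (Q : ℝ) ^ 2 := by
  classical
  obtain ⟨C, hC, havg⟩ := avg2 hm h
  refine ⟨3 * (C * 35), by positivity, ?_⟩
  intro Q t H hQ hH0 hH1 hl3
  have hq1 : (1 : ℝ) ≤ Q := by exact_mod_cast hQ
  have hlq : 0 ≤ Real.log Q := Real.log_nonneg hq1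
  set l : ℝ := 1 + Real.log Q with hl
  have hl0 : 0 < l := by linarith
  set hh : ℝ := 16 / l with hhd
  have hh0 : 0 < hh := by positivity
  have hhl : hh * l = 16 := by rw [hhd]; field_simp
  have hh1 : hh ≤ 1 / 200 := by
    rw [hhd, div_le_div_iff₀ hl0 (by norm_num)]
    linarith
  set A : Finset ℤ := Icc (-(⌊H / hh⌋ + 1)) (⌊H / hh⌋ + 1) with hA
  set w : ℤ → ℂ := fun n => pt (1 / 2) (t + (n : ℝ) * hh) with hw
  have h1 : ∀ i ∈ idx N Q, (nz (L i.1 i.2) (slab 0 hh t H) : ℝ) ≤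
      ∑ n ∈ A, (nz (L i.1 i.2) (Metric.closedBall (w n) (2 * hh)) : ℝ) := by
    intro i hi
    obtain ⟨hd, hne⟩ := fo_mem h hi
    have h2 := nz_balls hd (two_ne hne) A w (fun _ => 2 * hh) (S := slab 0 hh t H)
      fun s hs _ => by
        obtain ⟨s1, s2, s3⟩ := hs
        obtain ⟨n, hn, hn2⟩ := grid_near hh0 s3
        refine ⟨n, hn, ?_⟩
        refine (Complex.norm_le_abs_re_add_abs_im _).trans ?_
        rw [hw, sub_re, sub_im, pt_re, pt_im, abs_of_nonneg s1]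
        linarith
    exact_mod_cast h2
  refine (Finset.sum_le_sum h1).trans ?_
  rw [Finset.sum_comm]
  have ht0 := abs_nonneg t
  have h2 : ∀ n ∈ A, ∑ i ∈ idx N Q,
      (nz (L i.1 i.2) (Metric.closedBall (w n) (2 * hh)) : ℝ) ≤
      C * 35 * (2 + |t|) * (Q : ℝ) ^ 2 := by
    intro n hn
    have h3 := havg Q (t + (n : ℝ) * hh) (2 * hh)
      (fun q χ => nz (L q χ) (Metric.closedBall (w n) (2 * hh))) hQ (by positivity) (by linarith)
      (fun q χ hq2 hqQ hqN hχ => ?_)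
    · rw [sumq_eq] at h3
      refine h3.trans ?_
      have h4 := grid_im (t := t) hh0 hH0 hn
      have h5 : Real.log (2 + |t + (n : ℝ) * hh|) ≤ 3 + |t| := by
        have h6 := Real.log_le_sub_one_of_pos (show 0 < 2 + |t + (n : ℝ) * hh| by positivity)
        linarith
      have h6 : 2 * hh * Real.log Q ≤ 32 := by
        have h7 : 2 * hh * Real.log Q ≤ 2 * hh * l := by
          gcongr
          linarith
        linarith
      calc C * (Q : ℝ) ^ 2 * (2 * hh * Real.log Q + Real.log (2 + |t + (n : ℝ) * hh|))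
          ≤ C * (Q : ℝ) ^ 2 * (35 * (2 + |t|)) := by
            refine mul_le_mul_of_nonneg_left ?_ (by positivity)
            linarith
        _ = _ := by ring
    · have hi : (⟨q, χ⟩ : Σ q : ℕ, DirichletCharacter ℂ q) ∈ idx N Q :=
        mem_idx.2 ⟨⟨hq2, hqQ⟩, hqN, hχ⟩
      obtain ⟨hd, hne⟩ := fo_mem h hi
      exact dv_nz hd (two_ne hne) fun s hs => by
        rwa [Metric.mem_closedBall, dist_eq_norm] at hs
  refine (Finset.sum_le_sum h2).trans ?_
  rw [Finset.sum_const, nsmul_eq_mul]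
  have hnum : ((A.card : ℕ) : ℝ) ≤ 3 * (1 + H * l) := by
    have h3 := card_Icc_sym (x := H / hh) (by positivity)
    refine h3.trans ?_
    have h4 : H / hh = H * l / 16 := by
      rw [hhd]
      field_simp
    rw [h4]
    have : 0 ≤ H * l := by positivity
    linarith
  calc ((A.card : ℕ) : ℝ) * (C * 35 * (2 + |t|) * (Q : ℝ) ^ 2)
      ≤ (3 * (1 + H * l)) * (C * 35 * (2 + |t|) * (Q : ℝ) ^ 2) := by gcongr
    _ = _ := by ring

/-- the middle range -/
theorem mid_sum {m N : ℕ} (hm : m ≤ 3) {L : (q : ℕ) → DirichletCharacter ℂ q → ℂ → ℂ}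
    (h : Fo m N L) (h' : Fm m N L) : ∃ C : ℝ, 0 ≤ C ∧ ∀ (Q : ℕ) (t H δ : ℝ), 1 ≤ Q → 0 ≤ H →
      H ≤ 1 → 16 ≤ δ * (1 + Real.log Q) → δ ≤ 1 / 2 →
      ∑ i ∈ idx N Q, (nz (L i.1 i.2) (reg δ t H) : ℝ) ≤
        C * (2 + |t|) ^ (3 * m + 2) * (1 + H * (1 + Real.log Q)) *
          ((Q : ℝ) ^ 2 * Real.exp (-(δ * (1 + Real.log Q)) / 40)) := by
  classical
  obtain ⟨C₁, hC₁, hn⟩ := near_sum hm h
  obtain ⟨C₂, hC₂, hf⟩ := far_sum hm h h'
  refine ⟨C₁ + C₂, by positivity, ?_⟩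
  intro Q t H δ hQ hH0 hH1 hδ16 hδ
  have hq1 : (1 : ℝ) ≤ Q := by exact_mod_cast hQ
  have hlq : 0 ≤ Real.log Q := Real.log_nonneg hq1
  set l : ℝ := 1 + Real.log Q with hl
  have hl0 : 0 < l := by linarith
  have hδ0 : 0 < δ := by
    by_contra hcon
    have : δ * l ≤ 0 := mul_nonpos_of_nonpos_of_nonneg (not_lt.1 hcon) hl0.le
    linarith
  have ht0 := abs_nonneg t
  have ht1 : 1 ≤ 2 + |t| := by linarith
  have hHl : 1 ≤ 1 + H * l := by
    have : 0 ≤ H * l := by positivity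
    linarith
  have p1 : (2 + |t|) ^ (3 * m) ≤ (2 + |t|) ^ (3 * m + 2) := pow_le_pow_right₀ ht1 (by omega)
  have p2 : (2 + |t|) ^ (2 * m + 2) ≤ (2 + |t|) ^ (3 * m + 2) := pow_le_pow_right₀ ht1 (by omega)
  set P : ℝ := (2 + |t|) ^ (3 * m + 2) with hP
  have hP0 : 0 ≤ P := by positivity
  -- a far part
  have hfar : ∀ δ' : ℝ, 1 / 125 ≤ δ' → δ ≤ δ' → δ' ≤ 1 / 2 →
      ∑ i ∈ idx N Q, (nz (L i.1 i.2) (reg δ' t H) : ℝ) ≤
        C₂ * P * (1 + H * l) * ((Q : ℝ) ^ 2 * Real.exp (-(δ * l) / 40)) := by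
    intro δ' h1 h2 h3
    refine (hf Q t H δ' hQ hH0 hH1 h1 h3).trans ?_
    have h4 : Real.exp (-(δ' * l) / 40) ≤ Real.exp (-(δ * l) / 40) := by
      apply Real.exp_le_exp.2
      have : δ * l ≤ δ' * l := by gcongr
      linarith
    calc C₂ * (2 + |t|) ^ (2 * m + 2) * ((Q : ℝ) ^ 2 * Real.exp (-(δ' * l) / 40))
        ≤ C₂ * P * ((Q : ℝ) ^ 2 * Real.exp (-(δ * l) / 40)) := by gcongr
      _ = C₂ * P * 1 * ((Q : ℝ) ^ 2 * Real.exp (-(δ * l) / 40)) := by ring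
      _ ≤ _ := by gcongr
  set X : ℝ := P * (1 + H * l) * ((Q : ℝ) ^ 2 * Real.exp (-(δ * l) / 40)) with hX
  have hX0 : 0 ≤ X := by positivity
  rcases le_total (1 / 125) δ with hc | hc
  · refine (hfar δ hc le_rfl hδ).trans ?_
    have : 0 ≤ C₁ * X := by positivity
    calc C₂ * P * (1 + H * l) * ((Q : ℝ) ^ 2 * Real.exp (-(δ * l) / 40)) = C₂ * X := by
          rw [hX]; ring
      _ ≤ C₁ * X + C₂ * X := by linarith
      _ = _ := by rw [hX]; ring
  · have h1 : ∀ i ∈ idx N Q, (nz (L i.1 i.2) (reg δ t H) : ℝ) ≤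
        (nz (L i.1 i.2) (slab δ (1 / 125) t H) : ℝ) + (nz (L i.1 i.2) (reg (1 / 125) t H) : ℝ) := by
      intro i hi
      obtain ⟨hd, hne⟩ := fo_mem h hi
      have h2 := nz_union hd (two_ne hne) (w := pt (1 / 2) t) (r := 2) (S := reg δ t H)
        (S₁ := slab δ (1 / 125) t H) (S₂ := reg (1 / 125) t H) (fun s hs hs0 => ?_)
        (fun s hs hs0 => ?_)
      · exact_mod_cast h2
      · have hre : s.re ≤ 1 := by
          by_contra hcon
          exact hne s (not_le.1 hcon) hs0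
        rcases hs with hs | hs
        · have := slab_bd hδ0.le hs
          linarith
        · obtain ⟨s1, s2⟩ := hs
          refine (Complex.norm_le_abs_re_add_abs_im _).trans ?_
          rw [sub_re, sub_im, pt_re, pt_im, abs_of_nonneg (by linarith : 0 ≤ s.re - 1 / 2)]
          linarith
      · obtain ⟨s1, s2⟩ := hs
        rcases le_total (s.re - 1 / 2) (1 / 125) with h3 | h3
        · exact Or.inl ⟨by linarith, h3, s2⟩
        · exact Or.inr ⟨by linarith, s2⟩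
    refine (Finset.sum_le_sum h1).trans ?_
    rw [Finset.sum_add_distrib]
    have h2 := hn Q t H δ hQ hH0 hH1 hδ16
    have h3 := hfar (1 / 125) le_rfl hc (by norm_num)
    have h4 : C₁ * (2 + |t|) ^ (3 * m) * (1 + H * l) *
        ((Q : ℝ) ^ 2 * Real.exp (-(δ * l) / 40)) ≤ C₁ * X := by
      rw [hX]
      calc _ ≤ C₁ * P * (1 + H * l) * ((Q : ℝ) ^ 2 * Real.exp (-(δ * l) / 40)) := by gcongr
        _ = _ := by ring
    calc _ ≤ C₁ * X + C₂ * P * (1 + H * l) * ((Q : ℝ) ^ 2 * Real.exp (-(δ * l) / 40)) :=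
          add_le_add (h2.trans h4) h3
      _ = _ := by rw [hX]; ring

/-- **the density theorem near the critical line, without loss** -/
theorem dens {m N : ℕ} (hm : m ≤ 3) {L : (q : ℕ) → DirichletCharacter ℂ q → ℂ → ℂ}
    (h : Fo m N L) (h' : Fm m N L) : ∃ C : ℝ, 0 ≤ C ∧ ∀ (Q : ℕ) (t H δ : ℝ), 1 ≤ Q → 0 ≤ H →
      H ≤ 1 → 0 ≤ δ → δ ≤ 1 / 2 →
      ∑ i ∈ idx N Q, (nz (L i.1 i.2) (reg δ t H) : ℝ) ≤
        C * (2 + |t|) ^ (3 * m + 2) * (1 + H * Real.log Q) * (Q : ℝ) ^ (2 - δ / 40) := by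
  classical
  obtain ⟨C₁, hC₁, hmid⟩ := mid_sum hm h h'
  obtain ⟨C₂, hC₂, hz⟩ := zone_sum hm h
  obtain ⟨C₃, hC₃, hmb⟩ := member_bd h
  refine ⟨2 * (C₁ + C₂ * Real.exp 1 + C₁) + C₃ * 3200 * Real.exp 40, by positivity, ?_⟩
  intro Q t H δ hQ hH0 hH1 hδ0 hδ
  have hq1 : (1 : ℝ) ≤ Q := by exact_mod_cast hQ
  have hq0 : (0 : ℝ) < Q := by linarith
  have hlq : 0 ≤ Real.log Q := Real.log_nonneg hq1
  set l : ℝ := 1 + Real.log Q with hl
  have hl0 : 0 < l := by linarith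
  have ht0 := abs_nonneg t
  have ht1 : 1 ≤ 2 + |t| := by linarith
  set P : ℝ := (2 + |t|) ^ (3 * m + 2) with hP
  have hP0 : 0 ≤ P := by positivity
  have hP1 : 2 + |t| ≤ P := by
    rw [hP]
    exact le_self_pow₀ ht1 (by omega)
  have hcard : (((idx N Q).card : ℕ) : ℝ) ≤ (Q : ℝ) ^ 2 := by
    have h1 := count_le N Q (fun _ _ => True)
    rw [count_eq] at h1
    simpa using h1
  -- the power of `Q`
  have hQp : (Q : ℝ) ^ (2 - δ / 40) = (Q : ℝ) ^ 2 * Real.exp (-(δ / 40) * Real.log Q) := by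
    rw [show (2 : ℝ) - δ / 40 = ((2 : ℕ) : ℝ) + -(δ / 40) by push_cast; ring,
      Real.rpow_add hq0, Real.rpow_natCast, Real.rpow_def_of_pos hq0, mul_comm (Real.log Q)]
  have hexp : Real.exp (-(δ * l) / 40) ≤ Real.exp (-(δ / 40) * Real.log Q) := by
    apply Real.exp_le_exp.2
    rw [hl]
    nlinarith
  have hH2 : 1 + H * l ≤ 2 * (1 + H * Real.log Q) := by
    rw [hl]
    have : 0 ≤ H * Real.log Q := by positivity
    linarith
  have hH3 : 1 ≤ 1 + H * Real.log Q := by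
    have : 0 ≤ H * Real.log Q := by positivity
    linarith
  set X : ℝ := P * (1 + H * Real.log Q) * (Q : ℝ) ^ (2 - δ / 40) with hX
  have hX0 : 0 ≤ X := by positivity
  have hgoal : (2 * (C₁ + C₂ * Real.exp 1 + C₁) + C₃ * 3200 * Real.exp 40) * P *
      (1 + H * Real.log Q) * (Q : ℝ) ^ (2 - δ / 40) =
      (2 * (C₁ + C₂ * Real.exp 1 + C₁) + C₃ * 3200 * Real.exp 40) * X := by
    rw [hX]
    ring
  rw [hgoal]
  have hmidX : ∀ δ' : ℝ, δ ≤ δ' → 16 ≤ δ' * l → δ' ≤ 1 / 2 →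
      ∑ i ∈ idx N Q, (nz (L i.1 i.2) (reg δ' t H) : ℝ) ≤ 2 * C₁ * X := by
    intro δ' h1 h2 h3
    refine (hmid Q t H δ' hQ hH0 hH1 h2 h3).trans ?_
    have h4 : Real.exp (-(δ' * l) / 40) ≤ Real.exp (-(δ * l) / 40) := by
      apply Real.exp_le_exp.2
      have : δ * l ≤ δ' * l := by gcongr
      linarith
    calc C₁ * P * (1 + H * l) * ((Q : ℝ) ^ 2 * Real.exp (-(δ' * l) / 40))
        ≤ C₁ * P * (2 * (1 + H * Real.log Q)) *
          ((Q : ℝ) ^ 2 * Real.exp (-(δ / 40) * Real.log Q)) := by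
          have h5 := h4.trans hexp
          have h6 : (Q : ℝ) ^ 2 * Real.exp (-(δ' * l) / 40) ≤
              (Q : ℝ) ^ 2 * Real.exp (-(δ / 40) * Real.log Q) :=
            mul_le_mul_of_nonneg_left h5 (by positivity)
          refine mul_le_mul (mul_le_mul_of_nonneg_left hH2 (by positivity)) h6 (by positivity)
            (by positivity)
      _ = _ := by rw [hX, hQp]; ring
  rcases lt_or_ge l 3200 with hsmall | hbig
  · -- small `Q`
    have h1 : ∀ i ∈ idx N Q, (nz (L i.1 i.2) (reg δ t H) : ℝ) ≤ C₃ * (3200 * P) := by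
      intro i hi
      refine (hmb Q t H (reg δ t H) hQ hH0 hH1 (fun s hs => ⟨by linarith [hs.1], hs.2⟩) i hi).trans ?_
      gcongr
    refine (Finset.sum_le_sum h1).trans ?_
    rw [Finset.sum_const, nsmul_eq_mul]
    have h2 : 1 ≤ Real.exp 40 * Real.exp (-(δ / 40) * Real.log Q) := by
      rw [← Real.exp_add]
      apply Real.one_le_exp
      have : Real.log Q ≤ 3200 := by linarith
      nlinarith
    have h3 : (Q : ℝ) ^ 2 ≤ Real.exp 40 * (Q : ℝ) ^ (2 - δ / 40) := by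
      rw [hQp]
      calc (Q : ℝ) ^ 2 = (Q : ℝ) ^ 2 * 1 := by ring
        _ ≤ (Q : ℝ) ^ 2 * (Real.exp 40 * Real.exp (-(δ / 40) * Real.log Q)) := by gcongr
        _ = _ := by ring
    calc (((idx N Q).card : ℕ) : ℝ) * (C₃ * (3200 * P))
        ≤ (Real.exp 40 * (Q : ℝ) ^ (2 - δ / 40)) * (C₃ * (3200 * P)) := by
          gcongr
          exact hcard.trans h3
      _ = (C₃ * 3200 * Real.exp 40) * (P * 1 * (Q : ℝ) ^ (2 - δ / 40)) := by ring
      _ ≤ (C₃ * 3200 * Real.exp 40) * X := by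
          rw [hX]
          gcongr
      _ ≤ _ := by
          refine mul_le_mul_of_nonneg_right ?_ hX0
          have : 0 ≤ 2 * (C₁ + C₂ * Real.exp 1 + C₁) := by positivity
          linarith
  have hrest : 0 ≤ C₃ * 3200 * Real.exp 40 := by positivity
  rcases le_total 16 (δ * l) with hc | hc
  · refine (hmidX δ le_rfl hc hδ).trans ?_
    refine mul_le_mul_of_nonneg_right ?_ hX0
    have : 0 ≤ C₂ * Real.exp 1 := by positivity
    linarith
  · set δ' : ℝ := 16 / l with hδ'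
    have hd1 : δ' * l = 16 := by rw [hδ']; field_simp
    have hd2 : δ ≤ δ' := by rw [hδ', le_div_iff₀ hl0]; exact hc
    have hd3 : δ' ≤ 1 / 200 := by
      rw [hδ', div_le_div_iff₀ hl0 (by norm_num)]
      linarith
    have hd0 : 0 < δ' := by positivity
    have h1 : ∀ i ∈ idx N Q, (nz (L i.1 i.2) (reg δ t H) : ℝ) ≤
        (nz (L i.1 i.2) (slab 0 δ' t H) : ℝ) + (nz (L i.1 i.2) (reg δ' t H) : ℝ) := by
      intro i hi
      obtain ⟨hd, hne⟩ := fo_mem h hi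
      have h2 := nz_union hd (two_ne hne) (w := pt (1 / 2) t) (r := 2) (S := reg δ t H)
        (S₁ := slab 0 δ' t H) (S₂ := reg δ' t H) (fun s hs hs0 => ?_)
        (fun s hs hs0 => ?_)
      · exact_mod_cast h2
      · have hre : s.re ≤ 1 := by
          by_contra hcon
          exact hne s (not_le.1 hcon) hs0
        rcases hs with hs | hs
        · have := slab_bd le_rfl hs
          linarith
        · obtain ⟨s1, s2⟩ := hs
          refine (Complex.norm_le_abs_re_add_abs_im _).trans ?_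
          rw [sub_re, sub_im, pt_re, pt_im, abs_of_nonneg (by linarith : 0 ≤ s.re - 1 / 2)]
          linarith
      · obtain ⟨s1, s2⟩ := hs
        rcases le_total (s.re - 1 / 2) δ' with h3 | h3
        · exact Or.inl ⟨by linarith, h3, s2⟩
        · exact Or.inr ⟨by linarith, s2⟩
    refine (Finset.sum_le_sum h1).trans ?_
    rw [Finset.sum_add_distrib]
    have h2 := hz Q t H hQ hH0 hH1 hbig
    have h3 := hmidX δ' hd2 hd1.ge (by linarith)
    have h4 : (Q : ℝ) ^ 2 ≤ Real.exp 1 * (Q : ℝ) ^ (2 - δ / 40) := by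
      rw [hQp]
      have h5 : 1 ≤ Real.exp 1 * Real.exp (-(δ / 40) * Real.log Q) := by
        rw [← Real.exp_add]
        apply Real.one_le_exp
        have : δ * Real.log Q ≤ δ * l := by
          gcongr
          linarith
        linarith
      calc (Q : ℝ) ^ 2 = (Q : ℝ) ^ 2 * 1 := by ring
        _ ≤ (Q : ℝ) ^ 2 * (Real.exp 1 * Real.exp (-(δ / 40) * Real.log Q)) := by gcongr
        _ = _ := by ring
    have h5 : C₂ * (2 + |t|) * (1 + H * l) * (Q : ℝ) ^ 2 ≤ 2 * (C₂ * Real.exp 1) * X := by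
      calc C₂ * (2 + |t|) * (1 + H * l) * (Q : ℝ) ^ 2
          ≤ C₂ * P * (2 * (1 + H * Real.log Q)) * (Real.exp 1 * (Q : ℝ) ^ (2 - δ / 40)) := by
            gcongr
        _ = _ := by rw [hX]; ring
    calc _ ≤ 2 * (C₂ * Real.exp 1) * X + 2 * C₁ * X := add_le_add (h2.trans h5) h3
      _ = (2 * (C₂ * Real.exp 1 + C₁)) * X := by ring
      _ ≤ _ := by
          refine mul_le_mul_of_nonneg_right ?_ hX0
          linarith

end Pool.Agent.KS6_85.SD
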