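import Pool.Agent.KS6_85.SD.Two

/-!
# All heights, and exponential moments of the distances to the critical line
-/

set_option autoImplicit false

namespace Pool.Agent.KS6_85.SD

open Finset Filter Topology Complex MeasureTheory
open Pool.Agent.R399.TW Pool.Agent.R399.TM
open scoped ComplexConjugate

/-- **both sides of the critical line** -/
theorem dens_two {m N : ℕ} (hm : m ≤ 3) {L : (q : ℕ) → DirichletCharacter ℂ q → ℂ → ℂ}
    (h : Fo m N L) (h' : Fm m N L)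
    (hsym : ∀ (q : ℕ) (χ : DirichletCharacter ℂ q), 2 ≤ q → Nat.Coprime q N → χ.IsPrimitive →
      ∀ s : ℂ, 0 < s.re → s.re < 1 / 2 →
        analyticOrderAt (L q χ) s = analyticOrderAt (L q χ) (1 - conj s)) :
    ∃ C : ℝ, 0 ≤ C ∧ ∀ (Q : ℕ) (t H δ : ℝ), 1 ≤ Q → 0 ≤ H →
      H ≤ 1 → 0 ≤ δ → δ ≤ 1 / 2 →
      ∑ i ∈ idx N Q, (nz (L i.1 i.2) (reg2 δ t H) : ℝ) ≤
        C * (2 + |t|) ^ (3 * m + 2) * (1 + H * Real.log Q) * (Q : ℝ) ^ (2 - δ / 40) := by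
  obtain ⟨C, hC, hd⟩ := dens hm h h'
  refine ⟨2 * C, by positivity, ?_⟩
  intro Q t H δ hQ hH0 hH1 hδ0 hδ
  have h1 : ∀ i ∈ idx N Q, (nz (L i.1 i.2) (reg2 δ t H) : ℝ) ≤
      2 * (nz (L i.1 i.2) (reg δ t H) : ℝ) := by
    intro i hi
    obtain ⟨hd, hne⟩ := fo_mem h hi
    rw [mem_idx] at hi
    exact_mod_cast nz_two hd hne (hsym i.1 i.2 hi.1.1 hi.2.1 hi.2.2) hδ0
  refine (Finset.sum_le_sum h1).trans ?_
  rw [← Finset.mul_sum]
  have h2 := hd Q t H δ hQ hH0 hH1 hδ0 hδ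
  calc 2 * ∑ i ∈ idx N Q, (nz (L i.1 i.2) (reg δ t H) : ℝ)
      ≤ 2 * (C * (2 + |t|) ^ (3 * m + 2) * (1 + H * Real.log Q) * (Q : ℝ) ^ (2 - δ / 40)) := by
        gcongr
    _ = _ := by ring

/-- the zeros up to the height `T` -/
def regT (δ T : ℝ) : Set ℂ :=
  {s : ℂ | 0 < s.re ∧ s.re < 1 ∧ δ ≤ |s.re - 1 / 2| ∧ |s.im| ≤ T}

/-- **all heights** -/
theorem dens_T {m N : ℕ} (hm : m ≤ 3) {L : (q : ℕ) → DirichletCharacter ℂ q → ℂ → ℂ}
    (h : Fo m N L) (h' : Fm m N L)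
    (hsym : ∀ (q : ℕ) (χ : DirichletCharacter ℂ q), 2 ≤ q → Nat.Coprime q N → χ.IsPrimitive →
      ∀ s : ℂ, 0 < s.re → s.re < 1 / 2 →
        analyticOrderAt (L q χ) s = analyticOrderAt (L q χ) (1 - conj s)) :
    ∃ C : ℝ, 0 ≤ C ∧ ∀ (Q : ℕ) (T δ : ℝ), 1 ≤ Q → 0 ≤ T → 0 ≤ δ → δ ≤ 1 / 2 →
      ∑ i ∈ idx N Q, (nz (L i.1 i.2) (regT δ T) : ℝ) ≤
        C * (2 + T) ^ (3 * m + 3) * (1 + Real.log Q) * (Q : ℝ) ^ (2 - δ / 40) := by
  classical
  obtain ⟨C, hC, hd⟩ := dens_two hm h h' hsym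
  refine ⟨3 * 2 ^ (3 * m + 2) * C, by positivity, ?_⟩
  intro Q T δ hQ hT hδ0 hδ
  have hq1 : (1 : ℝ) ≤ Q := by exact_mod_cast hQ
  have hlq : 0 ≤ Real.log Q := Real.log_nonneg hq1
  set A : Finset ℤ := Icc (-(⌊T / 1⌋ + 1)) (⌊T / 1⌋ + 1) with hA
  have h1 : ∀ i ∈ idx N Q, (nz (L i.1 i.2) (regT δ T) : ℝ) ≤
      ∑ n ∈ A, (nz (L i.1 i.2) (reg2 δ (0 + (n : ℝ) * 1) 1) : ℝ) := by
    intro i hi
    obtain ⟨hdi, hne⟩ := fo_mem h hi
    have h2 := nz_cover (F := L i.1 i.2) A (fun n => reg2 δ (0 + (n : ℝ) * 1) 1)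
      (S := regT δ T) (fun n => ?_) (fun s hs _ => ?_)
    · exact_mod_cast h2
    · exact fin_zeros hdi (two_ne hne) (w := pt (1 / 2) (0 + (n : ℝ) * 1)) (R := 1 + 1)
        fun s hs => reg2_bd hs
    · obtain ⟨s1, s2, s3, s4⟩ := hs
      obtain ⟨n, hn, hn2⟩ := grid_near (y := s.im) (t := 0) (H := T) (h := 1) one_pos
        (by rwa [sub_zero])
      exact ⟨n, hn, s1, s2, s3, hn2⟩
  refine (Finset.sum_le_sum h1).trans ?_
  rw [Finset.sum_comm]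
  have h2 : ∀ n ∈ A, ∑ i ∈ idx N Q, (nz (L i.1 i.2) (reg2 δ (0 + (n : ℝ) * 1) 1) : ℝ) ≤
      2 ^ (3 * m + 2) * C * (2 + T) ^ (3 * m + 2) * (1 + Real.log Q) *
        (Q : ℝ) ^ (2 - δ / 40) := by
    intro n hn
    refine (hd Q (0 + (n : ℝ) * 1) 1 δ hQ zero_le_one le_rfl hδ0 hδ).trans ?_
    have h3 := grid_im (t := 0) (H := T) (h := 1) one_pos hT hn
    rw [abs_zero] at h3
    have h4 : 2 + |0 + (n : ℝ) * 1| ≤ 2 * (2 + T) := by linarith
    rw [one_mul]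
    calc C * (2 + |0 + (n : ℝ) * 1|) ^ (3 * m + 2) * (1 + Real.log Q) * (Q : ℝ) ^ (2 - δ / 40)
        ≤ C * (2 * (2 + T)) ^ (3 * m + 2) * (1 + Real.log Q) * (Q : ℝ) ^ (2 - δ / 40) := by
          gcongr
      _ = _ := by rw [mul_pow 2 (2 + T)]; ring
  refine (Finset.sum_le_sum h2).trans ?_
  rw [Finset.sum_const, nsmul_eq_mul]
  have hnum : ((A.card : ℕ) : ℝ) ≤ 3 * (2 + T) := by
    have h5 := card_Icc_sym (x := T / 1) (by positivity)
    refine h5.trans ?_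
    rw [div_one]
    linarith
  calc ((A.card : ℕ) : ℝ) * (2 ^ (3 * m + 2) * C * (2 + T) ^ (3 * m + 2) * (1 + Real.log Q) *
        (Q : ℝ) ^ (2 - δ / 40))
      ≤ (3 * (2 + T)) * (2 ^ (3 * m + 2) * C * (2 + T) ^ (3 * m + 2) * (1 + Real.log Q) *
        (Q : ℝ) ^ (2 - δ / 40)) := by gcongr
    _ = _ := by rw [pow_succ (2 + T) (3 * m + 2)]; ring

/-- the sum of `Q ^ (|Re s - 1/2| / 80)` over the zeros -/
noncomputable def mz (F : ℂ → ℂ) (Q : ℕ) (t H : ℝ) : ℝ :=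
  ∑ᶠ s ∈ {s : ℂ | s ∈ reg2 0 t H ∧ F s = 0},
    (analyticOrderNatAt F s : ℝ) * (Q : ℝ) ^ (|s.re - 1 / 2| / 80)

/-- the exponential as a sum -/
lemma exp_le_steps (x : ℝ) : Real.exp (x / 80) ≤
    2 * (1 + ∑ k ∈ Icc 1 ⌊x⌋₊, Real.exp ((k : ℝ) / 80)) := by
  have h2 : Real.exp (1 / 80) ≤ 2 := by
    have h1 := Real.exp_one_lt_d9
    have h3 : Real.exp (1 / 80) ≤ Real.exp (1 / 2) := Real.exp_le_exp.2 (by norm_num)
    have h7 : Real.exp (1 / 2) ^ 2 = Real.exp 1 := by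
      rw [← Real.exp_nat_mul]
      norm_num
    have h8 := Real.exp_pos (1 / 2)
    nlinarith
  set n : ℕ := ⌊x⌋₊ with hn
  have h1 : x ≤ n + 1 := (Nat.lt_floor_add_one x).le
  have h3 : Real.exp (x / 80) ≤ 2 * Real.exp ((n : ℝ) / 80) := by
    calc Real.exp (x / 80) ≤ Real.exp (1 / 80 + n / 80) := Real.exp_le_exp.2 (by linarith)
      _ = Real.exp (1 / 80) * Real.exp ((n : ℝ) / 80) := Real.exp_add _ _
      _ ≤ _ := by gcongr
  refine h3.trans ?_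
  have h4 : Real.exp ((n : ℝ) / 80) ≤ 1 + ∑ k ∈ Icc 1 n, Real.exp ((k : ℝ) / 80) := by
    rcases Nat.eq_zero_or_pos n with h | h
    · rw [h]
      simp
    · have h5 := Finset.single_le_sum (f := fun k : ℕ => Real.exp ((k : ℝ) / 80))
        (s := Icc 1 n) (fun k _ => (Real.exp_pos _).le) (Finset.mem_Icc.2 ⟨h, le_rfl⟩)
      have h6 : (0 : ℝ) ≤ 1 := zero_le_one
      exact h5.trans (le_add_of_nonneg_left h6)
  linarith

/-- **exponential moments** -/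
theorem dens_mom {m N : ℕ} (hm : m ≤ 3) {L : (q : ℕ) → DirichletCharacter ℂ q → ℂ → ℂ}
    (h : Fo m N L) (h' : Fm m N L)
    (hsym : ∀ (q : ℕ) (χ : DirichletCharacter ℂ q), 2 ≤ q → Nat.Coprime q N → χ.IsPrimitive →
      ∀ s : ℂ, 0 < s.re → s.re < 1 / 2 →
        analyticOrderAt (L q χ) s = analyticOrderAt (L q χ) (1 - conj s)) :
    ∃ C : ℝ, 0 ≤ C ∧ ∀ (Q : ℕ) (t H : ℝ), 1 ≤ Q → 0 ≤ H → H ≤ 1 →
      ∑ i ∈ idx N Q, mz (L i.1 i.2) Q t H ≤
        C * (2 + |t|) ^ (3 * m + 2) * (1 + H * Real.log Q) * (Q : ℝ) ^ 2 := by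
  classical
  obtain ⟨C, hC, hd⟩ := dens_two hm h h' hsym
  refine ⟨164 * C, by positivity, ?_⟩
  intro Q t H hQ hH0 hH1
  have hq1 : (1 : ℝ) ≤ Q := by exact_mod_cast hQ
  have hq0 : (0 : ℝ) < Q := by linarith
  have hlq : 0 ≤ Real.log Q := Real.log_nonneg hq1
  set lq : ℝ := Real.log Q with hlqd
  rcases hlq.eq_or_lt with hz | hlq0
  · -- `Q = 1`
    have hQ1 : Q = 1 := by
      have h1 : (Q : ℝ) = 1 := by
        rcases (Real.log_eq_zero.1 hz.symm) with h | h | h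
        · linarith
        · exact h
        · linarith
      exact_mod_cast h1
    have hidx : idx N Q = ∅ := by
      rw [Finset.eq_empty_iff_forall_notMem]
      intro i hi
      rw [mem_idx] at hi
      omega
    rw [hidx, Finset.sum_empty]
    positivity
  set X : ℝ := C * (2 + |t|) ^ (3 * m + 2) * (1 + H * lq) * (Q : ℝ) ^ 2 with hX
  have hX0 : 0 ≤ X := by positivity
  set K : ℕ := ⌊lq / 2⌋₊ with hK
  have hKl : (K : ℝ) ≤ lq / 2 := Nat.floor_le (by positivity)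
  -- the bound for a single distance
  have hdk : ∀ k : ℕ, k ≤ K → ∑ i ∈ idx N Q, (nz (L i.1 i.2) (reg2 ((k : ℝ) / lq) t H) : ℝ) ≤
      X * Real.exp (-(k : ℝ) / 40) := by
    intro k hk
    have h1 : (k : ℝ) ≤ lq / 2 := le_trans (by exact_mod_cast hk) hKl
    have h2 : (k : ℝ) / lq ≤ 1 / 2 := by
      rw [div_le_iff₀ hlq0]
      linarith
    refine (hd Q t H ((k : ℝ) / lq) hQ hH0 hH1 (by positivity) h2).trans (le_of_eq ?_)
    rw [hX, show (2 : ℝ) - (k : ℝ) / lq / 40 = ((2 : ℕ) : ℝ) + -((k : ℝ) / lq / 40) by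
      push_cast; ring, Real.rpow_add hq0, Real.rpow_natCast, Real.rpow_def_of_pos hq0, ← hlqd]
    have h3 : lq * -((k : ℝ) / lq / 40) = -(k : ℝ) / 40 := by
      field_simp
    rw [h3]
    ring
  -- a single member
  have hmem : ∀ i ∈ idx N Q, mz (L i.1 i.2) Q t H ≤
      2 * ((nz (L i.1 i.2) (reg2 ((0 : ℕ) / lq) t H) : ℝ) + ∑ k ∈ Icc 1 K, Real.exp ((k : ℝ) / 80) *
        (nz (L i.1 i.2) (reg2 ((k : ℝ) / lq) t H) : ℝ)) := by
    intro i hi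
    obtain ⟨hdi, hne⟩ := fo_mem h hi
    have hfin : ∀ δ : ℝ, {s : ℂ | s ∈ reg2 δ t H ∧ L i.1 i.2 s = 0}.Finite := fun δ =>
      fin_zeros hdi (two_ne hne) (w := pt (1 / 2) t) (R := 1 + H) fun s hs => reg2_bd hs
    unfold mz
    rw [finsum_mem_eq_finite_toFinset_sum _ (hfin 0)]
    set Z := (hfin 0).toFinset with hZ
    have hnzk : ∀ k : ℕ, (nz (L i.1 i.2) (reg2 ((k : ℝ) / lq) t H) : ℝ) =
        ∑ s ∈ Z, if (k : ℝ) ≤ |s.re - 1 / 2| * lq then (analyticOrderNatAt (L i.1 i.2) s : ℝ)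
          else 0 := by
      intro k
      rw [nz_eq (hfin _), ← Finset.sum_filter]
      push_cast
      refine Finset.sum_congr ?_ fun _ _ => rfl
      ext s
      rw [Finset.mem_filter, hZ, Set.Finite.mem_toFinset, Set.Finite.mem_toFinset]
      unfold reg2
      simp only [Set.mem_ofPred_eq, abs_nonneg, true_and]
      rw [div_le_iff₀ hlq0]
      tauto
    rw [hnzk 0]
    have h1 : ∀ k ∈ Icc 1 K, Real.exp ((k : ℝ) / 80) *
        (nz (L i.1 i.2) (reg2 ((k : ℝ) / lq) t H) : ℝ) =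
        ∑ s ∈ Z, Real.exp ((k : ℝ) / 80) * (if (k : ℝ) ≤ |s.re - 1 / 2| * lq then
          (analyticOrderNatAt (L i.1 i.2) s : ℝ) else 0) := by
      intro k _
      rw [hnzk k, Finset.mul_sum]
    rw [Finset.sum_congr rfl h1, Finset.sum_comm, ← Finset.sum_add_distrib, Finset.mul_sum]
    refine Finset.sum_le_sum fun s hs => ?_
    rw [hZ, Set.Finite.mem_toFinset] at hs
    obtain ⟨⟨s1, s2, s3, s4⟩, s5⟩ := hs
    set x : ℝ := |s.re - 1 / 2| * lq with hx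
    have hx0 : 0 ≤ x := by positivity
    have hx1 : x ≤ lq / 2 := by
      have : |s.re - 1 / 2| ≤ 1 / 2 := by
        rw [abs_le]
        constructor <;> linarith
      calc x ≤ 1 / 2 * lq := by rw [hx]; gcongr
        _ = _ := by ring
    have e1 : (Q : ℝ) ^ (|s.re - 1 / 2| / 80) = Real.exp (x / 80) := by
      rw [Real.rpow_def_of_pos hq0, ← hlqd, hx]
      congr 1
      ring
    rw [e1, if_pos (by push_cast; exact hx0)]
    have h2 := exp_le_steps x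
    have hfl : ⌊x⌋₊ ≤ K := Nat.floor_le_floor hx1
    have h3 : ∑ k ∈ Icc 1 K, Real.exp ((k : ℝ) / 80) * (if (k : ℝ) ≤ x then
        (analyticOrderNatAt (L i.1 i.2) s : ℝ) else 0) =
        (analyticOrderNatAt (L i.1 i.2) s : ℝ) * ∑ k ∈ Icc 1 ⌊x⌋₊, Real.exp ((k : ℝ) / 80) := by
      rw [Finset.mul_sum]
      have h4 : Icc 1 ⌊x⌋₊ = (Icc 1 K).filter (fun k : ℕ => (k : ℝ) ≤ x) := by
        ext k
        rw [Finset.mem_filter, Finset.mem_Icc, Finset.mem_Icc]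
        constructor
        · rintro ⟨k1, k2⟩
          exact ⟨⟨k1, k2.trans hfl⟩, (Nat.le_floor_iff hx0).1 k2⟩
        · rintro ⟨⟨k1, k2⟩, k3⟩
          exact ⟨k1, (Nat.le_floor_iff hx0).2 k3⟩
      rw [h4, Finset.sum_filter]
      refine Finset.sum_congr rfl fun k _ => ?_
      split_ifs <;> ring
    rw [h3]
    have h5 : (0 : ℝ) ≤ (analyticOrderNatAt (L i.1 i.2) s : ℝ) := Nat.cast_nonneg _
    calc (analyticOrderNatAt (L i.1 i.2) s : ℝ) * Real.exp (x / 80)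
        ≤ (analyticOrderNatAt (L i.1 i.2) s : ℝ) *
          (2 * (1 + ∑ k ∈ Icc 1 ⌊x⌋₊, Real.exp ((k : ℝ) / 80))) := by gcongr
      _ = _ := by ring
  refine (Finset.sum_le_sum hmem).trans ?_
  rw [← Finset.mul_sum, Finset.sum_add_distrib, Finset.sum_comm]
  have h1 := hdk 0 (Nat.zero_le K)
  have h2 : ∑ k ∈ Icc 1 K, ∑ i ∈ idx N Q, Real.exp ((k : ℝ) / 80) *
      (nz (L i.1 i.2) (reg2 ((k : ℝ) / lq) t H) : ℝ) ≤ 81 * X := by
    have h3 : ∀ k ∈ Icc 1 K, ∑ i ∈ idx N Q, Real.exp ((k : ℝ) / 80) *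
        (nz (L i.1 i.2) (reg2 ((k : ℝ) / lq) t H) : ℝ) ≤ X * Real.exp (-(1 / 80)) ^ k := by
      intro k hk
      rw [Finset.mem_Icc] at hk
      rw [← Finset.mul_sum]
      calc Real.exp ((k : ℝ) / 80) *
            ∑ i ∈ idx N Q, (nz (L i.1 i.2) (reg2 ((k : ℝ) / lq) t H) : ℝ)
          ≤ Real.exp ((k : ℝ) / 80) * (X * Real.exp (-(k : ℝ) / 40)) := by
            gcongr
            exact hdk k hk.2
        _ = X * (Real.exp ((k : ℝ) / 80) * Real.exp (-(k : ℝ) / 40)) := by ring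
        _ = _ := by
            rw [← Real.exp_add, ← Real.exp_nat_mul]
            congr 2
            ring
    refine (Finset.sum_le_sum h3).trans ?_
    rw [← Finset.mul_sum]
    set y : ℝ := Real.exp (-(1 / 80)) with hy
    have hy0 : 0 < y := Real.exp_pos _
    have hy1 : y < 1 := by
      rw [hy, ← Real.exp_zero]
      exact Real.exp_lt_exp.2 (by norm_num)
    have h6 : ∑ k ∈ Icc 1 K, y ^ k ≤ (1 - y)⁻¹ :=
      sum_le_hasSum (Icc 1 K) (fun n _ => by positivity) (hasSum_geometric_of_lt_one hy0.le hy1)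
    have h7 : (1 - y)⁻¹ ≤ 81 := by
      have h8 := Real.add_one_le_exp (1 / 80 : ℝ)
      have h9 : y * Real.exp (1 / 80) = 1 := by
        rw [hy, ← Real.exp_add, neg_add_cancel, Real.exp_zero]
      have h10 : y ≤ 80 / 81 := by nlinarith
      rw [inv_le_comm₀ (by linarith) (by norm_num)]
      linarith
    calc X * ∑ k ∈ Icc 1 K, y ^ k ≤ X * 81 := by
          gcongr
          exact h6.trans h7
      _ = _ := by ring
  have h3 : X * Real.exp (-((0 : ℕ) : ℝ) / 40) = X := by simp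
  rw [h3] at h1
  calc 2 * (_ + _) ≤ 2 * (X + 81 * X) := by gcongr
    _ = _ := by rw [hX]; ring

end Pool.Agent.KS6_85.SD
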