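import Pool.Agent.KS6_85.SD.Cell

/-!
# Sums over cells near the critical line
-/

set_option autoImplicit false

namespace Pool.Agent.KS6_85.SD

open Finset Filter Topology Complex MeasureTheory
open Pool.Agent.R399.TW Pool.Agent.R399.TM Pool.Agent.NH12.BA
open scoped ComplexConjugate

/-- the members -/
lemma fo_mem {m N : ℕ} {L : (q : ℕ) → DirichletCharacter ℂ q → ℂ → ℂ} (h : Fo m N L) {Q : ℕ}
    {i : Σ q : ℕ, DirichletCharacter ℂ q} (hi : i ∈ idx N Q) :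
    Differentiable ℂ (L i.1 i.2) ∧ ∀ s : ℂ, 1 < s.re → L i.1 i.2 s ≠ 0 := by
  obtain ⟨c, R₀, V, C₀, hR₀, hV, hL, hC₀, hmem⟩ := h
  rw [mem_idx] at hi
  obtain ⟨hd, F, hF, E, hE, hFE⟩ := hmem i.1 i.2 hi.1.1 hi.2.1 hi.2.2
  refine ⟨hd, fun s hs h0 => ?_⟩
  have := hF.ne hL hs
  rw [hFE, h0, zero_mul] at this
  exact this rfl

lemma two_ne {L : ℂ → ℂ} (h : ∀ s : ℂ, 1 < s.re → L s ≠ 0) : L 2 ≠ 0 := h 2 (by norm_num)

/-- the sum over a cell -/
theorem cell_sum {m N : ℕ} (hm : m ≤ 3) {L : (q : ℕ) → DirichletCharacter ℂ q → ℂ → ℂ}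
    (h : Fo m N L) : ∃ C : ℝ, 0 ≤ C ∧ ∀ (Q : ℕ) (τ lam : ℝ), 1 ≤ Q →
      8 ≤ lam * (1 + Real.log Q) → lam ≤ 1 / 125 →
      ∑ i ∈ idx N Q, (nz (L i.1 i.2) (Metric.closedBall (pt (1 / 2 + lam) τ) (lam / 4)) : ℝ) ≤
        C * (2 + |τ|) ^ (3 * m) *
          ((Q : ℝ) ^ 2 * Real.exp (-(lam * (1 + Real.log Q)) / 40)) := by
  classical
  obtain ⟨C₁, hC₁, h1⟩ := one_zero_fo hm h
  obtain ⟨C₂, hC₂, h2⟩ := tail2 hm h
  refine ⟨751 * 40 * Real.exp 2 * C₁ + 2000 * C₂, by positivity, ?_⟩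
  intro Q τ lam hQ hlam8 hlam
  have hq1 : (1 : ℝ) ≤ Q := by exact_mod_cast hQ
  have hq0 : (0 : ℝ) < Q := by linarith
  have hlq : 0 ≤ Real.log Q := Real.log_nonneg hq1
  set l : ℝ := 1 + Real.log Q with hl
  have hl0 : 0 < l := by linarith
  have hlam0 : 0 < lam := by
    by_contra hcon
    have : lam * l ≤ 0 := mul_nonpos_of_nonpos_of_nonneg (not_lt.1 hcon) hl0.le
    linarith
  set r : ℝ := 5 / 4 * lam with hr
  set K : ℕ := ⌈600 * r * l⌉₊ with hK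
  have hK1 : 600 * r * l ≤ K := Nat.le_ceil _
  have hK2 : (K : ℝ) ≤ 751 * (lam * l) := by
    have h3 : (K : ℝ) < 600 * r * l + 1 := Nat.ceil_lt_add_one (by positivity)
    rw [hr] at h3
    nlinarith
  set κ : (Σ q : ℕ, DirichletCharacter ℂ q) → ℕ := fun i =>
    nz (L i.1 i.2) (Metric.closedBall (pt (1 / 2 + lam) τ) (lam / 4)) with hκ
  have hT1 : (1 : ℝ) ≤ 2 + |τ| := by linarith [abs_nonneg τ]
  set B : ℝ := C₂ * (2 + |τ|) ^ (3 * m) * (Q : ℝ) ^ 2 with hB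
  have key := sum_le_tail (idx N Q) κ (B := B) (s := 1 / 2000) (K := K) (by positivity)
    (by norm_num) fun k hk => ?_
  · refine key.trans ?_
    have h3 : (((idx N Q).filter fun i => 1 ≤ κ i).card : ℝ) ≤
        C₁ * (2 + |τ|) ^ (2 * m) * Real.exp ((2 - lam / 20) * l) := by
      have h4 := h1 Q τ lam hQ hlam8 (by linarith)
      rw [count_eq] at h4
      refine le_trans ?_ h4
      have h5 : (idx N Q).filter (fun i => 1 ≤ κ i) ⊆ (idx N Q).filter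
          (fun i => ∃ ρ : ℂ, ‖ρ - pt (1 / 2 + lam) τ‖ ≤ lam / 4 ∧ L i.1 i.2 ρ = 0) := by
        intro i hi
        rw [Finset.mem_filter] at hi ⊢
        obtain ⟨ρ, hρ, hρ0⟩ := exists_of_nz hi.2
        rw [Metric.mem_closedBall, dist_eq_norm] at hρ
        exact ⟨hi.1, ρ, hρ, hρ0⟩
      exact_mod_cast Finset.card_le_card h5
    have e1 : Real.exp ((2 - lam / 20) * l) = Real.exp 2 * ((Q : ℝ) ^ 2 *
        (Real.exp (-(lam * l) / 40) * Real.exp (-(lam * l) / 40))) := by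
      have e2 : (Q : ℝ) ^ 2 = Real.exp (2 * Real.log Q) := by
        rw [mul_comm, Real.exp_mul, Real.exp_log hq0]
        norm_num
      rw [e2, ← Real.exp_add, ← Real.exp_add, ← Real.exp_add]
      congr 1
      rw [hl]
      ring
    set x : ℝ := lam * l with hx
    have hx0 : 0 < x := by positivity
    set e : ℝ := Real.exp (-x / 40) with he
    have he0 : 0 < e := Real.exp_pos _
    have e3 : x * e ≤ 40 := by
      have h5 := Real.add_one_le_exp (x / 40)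
      have h6 : e * Real.exp (x / 40) = 1 := by
        rw [he, ← Real.exp_add]
        have : -x / 40 + x / 40 = 0 := by ring
        rw [this, Real.exp_zero]
      nlinarith
    have e4 : Real.exp (-(1 / 2000 * (K : ℝ))) ≤ e := by
      rw [he]
      apply Real.exp_le_exp.2
      rw [hr] at hK1
      have : 750 * x ≤ K := by
        rw [hx]
        linarith
      linarith
    have h2m : (2 + |τ|) ^ (2 * m) ≤ (2 + |τ|) ^ (3 * m) :=
      pow_le_pow_right₀ hT1 (by omega)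
    have a1 : (K : ℝ) * (((idx N Q).filter fun i => 1 ≤ κ i).card : ℝ) ≤
        751 * 40 * Real.exp 2 * C₁ * ((2 + |τ|) ^ (3 * m) * ((Q : ℝ) ^ 2 * e)) := by
      calc (K : ℝ) * (((idx N Q).filter fun i => 1 ≤ κ i).card : ℝ)
          ≤ (751 * x) * (C₁ * (2 + |τ|) ^ (3 * m) * (Real.exp 2 * ((Q : ℝ) ^ 2 * (e * e)))) := by
            refine mul_le_mul hK2 (h3.trans ?_) (Nat.cast_nonneg _) (by positivity)
            rw [e1]
            gcongr
        _ = 751 * Real.exp 2 * C₁ * ((2 + |τ|) ^ (3 * m) * ((Q : ℝ) ^ 2 * e)) * (x * e) := by ring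
        _ ≤ 751 * Real.exp 2 * C₁ * ((2 + |τ|) ^ (3 * m) * ((Q : ℝ) ^ 2 * e)) * 40 := by
            gcongr
        _ = _ := by ring
    have a2 : B * Real.exp (-(1 / 2000 * (K : ℝ))) / (1 / 2000) ≤
        2000 * C₂ * ((2 + |τ|) ^ (3 * m) * ((Q : ℝ) ^ 2 * e)) := by
      calc B * Real.exp (-(1 / 2000 * (K : ℝ))) / (1 / 2000)
          = 2000 * (B * Real.exp (-(1 / 2000 * (K : ℝ)))) := by ring
        _ ≤ 2000 * (B * e) := by gcongr
        _ = _ := by rw [hB]; ring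
    calc _ ≤ _ := add_le_add a1 a2
      _ = _ := by ring
  · have h3 := h2 Q τ r k hQ (by rw [hr]; linarith) (hK1.trans (by exact_mod_cast hk))
    rw [count_eq] at h3
    have h4 : (idx N Q).filter (fun i => k ≤ κ i) ⊆
        (idx N Q).filter (fun i => Dv (L i.1 i.2) k (pt (1 / 2) τ) r) := by
      intro i hi
      rw [Finset.mem_filter] at hi ⊢
      obtain ⟨hd, hne⟩ := fo_mem h hi.1
      have h5 := dv_nz hd (two_ne hne) (w := pt (1 / 2 + lam) τ) (r := lam / 4)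
        (S := Metric.closedBall (pt (1 / 2 + lam) τ) (lam / 4)) fun s hs => by
          rwa [Metric.mem_closedBall, dist_eq_norm] at hs
      refine ⟨hi.1, (h5.move ?_).le hi.2⟩
      have h6 : pt (1 / 2 + lam) τ - pt (1 / 2) τ = ((lam : ℝ) : ℂ) := by
        apply Complex.ext <;> simp
      rw [h6, Complex.norm_real, Real.norm_of_nonneg hlam0.le, hr]
      linarith
    have h5 : (((idx N Q).filter (fun i => k ≤ κ i)).card : ℝ) ≤
        (((idx N Q).filter (fun i => Dv (L i.1 i.2) k (pt (1 / 2) τ) r)).card : ℝ) := by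
      exact_mod_cast Finset.card_le_card h4
    refine h5.trans (h3.trans (le_of_eq ?_))
    rw [hB]
    have e1 : Real.exp (-(k : ℝ) / 2000) = Real.exp (-(1 / 2000 * (k : ℝ))) := by
      congr 1
      ring
    rw [e1]
    ring

/-- the layer at distance `lam` -/
def layer (lam t H : ℝ) : Set ℂ :=
  {s : ℂ | lam ≤ s.re - 1 / 2 ∧ s.re - 1 / 2 ≤ 9 / 8 * lam ∧ |s.im - t| ≤ H}

/-- the number of integers -/
lemma card_Icc_sym {x : ℝ} (hx : 0 ≤ x) :
    (((Icc (-(⌊x⌋ + 1)) (⌊x⌋ + 1)).card : ℕ) : ℝ) ≤ 2 * x + 3 := by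
  rw [Int.card_Icc]
  have hB0 : 0 ≤ ⌊x⌋ := Int.floor_nonneg.2 hx
  have c2 : (((⌊x⌋ + 1 + 1 - -(⌊x⌋ + 1)).toNat : ℕ) : ℝ) = 2 * ⌊x⌋ + 3 := by
    have : (((⌊x⌋ + 1 + 1 - -(⌊x⌋ + 1)).toNat : ℤ)) = 2 * ⌊x⌋ + 3 := by omega
    exact_mod_cast this
  rw [c2]
  have := Int.floor_le x
  linarith

/-- a grid point near `y` -/
lemma grid_near {y t H h : ℝ} (hh : 0 < h) (hy : |y - t| ≤ H) :
    ∃ n ∈ Icc (-(⌊H / h⌋ + 1)) (⌊H / h⌋ + 1), |y - (t + (n : ℝ) * h)| ≤ h := by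
  refine ⟨⌊(y - t) / h⌋, ?_, ?_⟩
  · rw [Finset.mem_Icc]
    have h3 := abs_le.1 hy
    constructor
    · rw [Int.le_floor]
      push_cast
      have h4 := Int.lt_floor_add_one (H / h)
      have h5 : -(H / h) ≤ (y - t) / h := by
        rw [← neg_div]
        exact div_le_div_of_nonneg_right h3.1 hh.le
      linarith
    · have h5 : (y - t) / h ≤ H / h := div_le_div_of_nonneg_right h3.2 hh.le
      have := Int.floor_le_floor h5
      omega
  · have h1 := floor_cell (x := y - t) hh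
    have h2 : y - (t + (⌊(y - t) / h⌋ : ℝ) * h) = y - t - (⌊(y - t) / h⌋ : ℝ) * h := by ring
    rw [h2]
    exact h1

lemma grid_im {t H h : ℝ} (hh : 0 < h) (hH : 0 ≤ H) {n : ℤ}
    (hn : n ∈ Icc (-(⌊H / h⌋ + 1)) (⌊H / h⌋ + 1)) : |t + (n : ℝ) * h| ≤ |t| + H + h := by
  rw [Finset.mem_Icc] at hn
  have h1 : (n : ℝ) ≤ H / h + 1 := by
    have h2 : (n : ℝ) ≤ ⌊H / h⌋ + 1 := by exact_mod_cast hn.2
    have := Int.floor_le (H / h)
    linarith
  have h2 : -(H / h + 1) ≤ (n : ℝ) := by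
    have h3 : -((⌊H / h⌋ : ℝ) + 1) ≤ n := by exact_mod_cast hn.1
    have := Int.floor_le (H / h)
    linarith
  have h3 : |(n : ℝ) * h| ≤ H + h := by
    rw [abs_mul, abs_of_pos hh]
    have h4 : |(n : ℝ)| ≤ H / h + 1 := abs_le.2 ⟨h2, h1⟩
    calc |(n : ℝ)| * h ≤ (H / h + 1) * h := by gcongr
      _ = H + h := by field_simp
  have := abs_add_le t ((n : ℝ) * h)
  linarith

/-- the sum over a layer -/
theorem layer_sum {m N : ℕ} (hm : m ≤ 3) {L : (q : ℕ) → DirichletCharacter ℂ q → ℂ → ℂ}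
    (h : Fo m N L) : ∃ C : ℝ, 0 ≤ C ∧ ∀ (Q : ℕ) (t H lam : ℝ), 1 ≤ Q → 0 ≤ H → H ≤ 1 →
      16 ≤ lam * (1 + Real.log Q) → lam ≤ 1 / 125 →
      ∑ i ∈ idx N Q, (nz (L i.1 i.2) (layer lam t H) : ℝ) ≤
        C * (2 + |t|) ^ (3 * m) * (1 + H * (1 + Real.log Q)) *
          ((Q : ℝ) ^ 2 * Real.exp (-(lam * (1 + Real.log Q)) / 40)) := by
  classical
  obtain ⟨C, hC, hcell⟩ := cell_sum hm h
  refine ⟨3 * 2 ^ (3 * m) * C, by positivity, ?_⟩
  intro Q t H lam hQ hH0 hH1 hlam16 hlam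
  have hq1 : (1 : ℝ) ≤ Q := by exact_mod_cast hQ
  have hlq : 0 ≤ Real.log Q := Real.log_nonneg hq1
  set l : ℝ := 1 + Real.log Q with hl
  have hl0 : 0 < l := by linarith
  have hlam0 : 0 < lam := by
    by_contra hcon
    have : lam * l ≤ 0 := mul_nonpos_of_nonpos_of_nonneg (not_lt.1 hcon) hl0.le
    linarith
  set hh : ℝ := lam / 8 with hhd
  have hh0 : 0 < hh := by positivity
  set A : Finset ℤ := Icc (-(⌊H / hh⌋ + 1)) (⌊H / hh⌋ + 1) with hA
  set w : ℤ → ℂ := fun n => pt (1 / 2 + lam) (t + (n : ℝ) * hh) with hw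
  set X : ℝ := (Q : ℝ) ^ 2 * Real.exp (-(lam * l) / 40) with hX
  have hX0 : 0 ≤ X := by positivity
  have h1 : ∀ i ∈ idx N Q, (nz (L i.1 i.2) (layer lam t H) : ℝ) ≤
      ∑ n ∈ A, (nz (L i.1 i.2) (Metric.closedBall (w n) (lam / 4)) : ℝ) := by
    intro i hi
    obtain ⟨hd, hne⟩ := fo_mem h hi
    have h2 := nz_balls hd (two_ne hne) A w (fun _ => lam / 4) (S := layer lam t H)
      fun s hs _ => by
        obtain ⟨s1, s2, s3⟩ := hs
        obtain ⟨n, hn, hn2⟩ := grid_near hh0 s3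
        refine ⟨n, hn, ?_⟩
        refine (Complex.norm_le_abs_re_add_abs_im _).trans ?_
        rw [hw, sub_re, sub_im, pt_re, pt_im]
        have h3 : |s.re - (1 / 2 + lam)| ≤ lam / 8 := by
          rw [abs_le]
          constructor <;> linarith
        rw [hhd] at hn2
        linarith
    exact_mod_cast h2
  refine (Finset.sum_le_sum h1).trans ?_
  rw [Finset.sum_comm]
  have h2 : ∀ n ∈ A, ∑ i ∈ idx N Q,
      (nz (L i.1 i.2) (Metric.closedBall (w n) (lam / 4)) : ℝ) ≤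
      C * 2 ^ (3 * m) * (2 + |t|) ^ (3 * m) * X := by
    intro n hn
    refine (hcell Q (t + (n : ℝ) * hh) lam hQ (by linarith) hlam).trans ?_
    have h3 := grid_im (t := t) hh0 hH0 hn
    have h4 : 2 + |t + (n : ℝ) * hh| ≤ 2 * (2 + |t|) := by
      have : hh ≤ 1 := by rw [hhd]; linarith
      linarith [abs_nonneg t]
    calc C * (2 + |t + (n : ℝ) * hh|) ^ (3 * m) * X ≤ C * (2 * (2 + |t|)) ^ (3 * m) * X := by
          gcongr
      _ = _ := by rw [mul_pow 2 (2 + |t|)]; ring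
  refine (Finset.sum_le_sum h2).trans ?_
  rw [Finset.sum_const, nsmul_eq_mul]
  have hnum : ((A.card : ℕ) : ℝ) ≤ 3 * (1 + H * l) := by
    have h3 := card_Icc_sym (x := H / hh) (by positivity)
    refine h3.trans ?_
    have h4 : H / hh ≤ H * l / 2 := by
      rw [div_le_iff₀ hh0, hhd]
      have : H * 16 ≤ H * (lam * l) := by gcongr
      linarith
    have : 0 ≤ H * l := by positivity
    linarith
  calc ((A.card : ℕ) : ℝ) * (C * 2 ^ (3 * m) * (2 + |t|) ^ (3 * m) * X)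
      ≤ (3 * (1 + H * l)) * (C * 2 ^ (3 * m) * (2 + |t|) ^ (3 * m) * X) := by gcongr
    _ = _ := by ring

/-- the strip between two lines -/
def slab (δ δ' t H : ℝ) : Set ℂ :=
  {s : ℂ | δ ≤ s.re - 1 / 2 ∧ s.re - 1 / 2 ≤ δ' ∧ |s.im - t| ≤ H}

lemma slab_bd {δ δ' t H : ℝ} (hδ : 0 ≤ δ) {s : ℂ} (hs : s ∈ slab δ δ' t H) :
    ‖s - pt (1 / 2) t‖ ≤ δ' + H := by
  obtain ⟨s1, s2, s3⟩ := hs
  refine (Complex.norm_le_abs_re_add_abs_im _).trans ?_
  rw [sub_re, sub_im, pt_re, pt_im, abs_of_nonneg (by linarith : 0 ≤ s.re - 1 / 2)]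
  linarith

/-- a geometric sum -/
lemma geo_sum {y : ℝ} (hy : 16 ≤ y) (M : ℕ) :
    ∑ j ∈ range M, Real.exp (-((9 / 8) ^ j * y) / 40) ≤ 21 * Real.exp (-y / 40) := by
  set x : ℝ := Real.exp (-(1 / 20)) with hx
  have hx0 : 0 < x := Real.exp_pos _
  have hx1 : x < 1 := by
    rw [hx, ← Real.exp_zero]
    exact Real.exp_lt_exp.2 (by norm_num)
  have h1 : ∀ j ∈ range M, Real.exp (-((9 / 8) ^ j * y) / 40) ≤ Real.exp (-y / 40) * x ^ j := by
    intro j _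
    rw [hx, ← Real.exp_nat_mul, ← Real.exp_add]
    apply Real.exp_le_exp.2
    have h2 : 1 + (j : ℝ) * (1 / 8) ≤ (9 / 8 : ℝ) ^ j := by
      have := one_add_mul_le_pow (a := (1 / 8 : ℝ)) (by norm_num) j
      refine this.trans (le_of_eq ?_)
      norm_num
    have h3 : (1 + (j : ℝ) * (1 / 8)) * y ≤ (9 / 8 : ℝ) ^ j * y := by gcongr
    have h4 : (j : ℝ) * 16 ≤ j * y := by gcongr
    nlinarith
  refine (Finset.sum_le_sum h1).trans ?_
  rw [← Finset.mul_sum]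
  have h6 : ∑ j ∈ range M, x ^ j ≤ (1 - x)⁻¹ :=
    sum_le_hasSum (range M) (fun n _ => by positivity) (hasSum_geometric_of_lt_one hx0.le hx1)
  have h7 : (1 - x)⁻¹ ≤ 21 := by
    have h8 := Real.add_one_le_exp (1 / 20 : ℝ)
    have h9 : x * Real.exp (1 / 20) = 1 := by
      rw [hx, ← Real.exp_add, neg_add_cancel, Real.exp_zero]
    have h10 : x ≤ 20 / 21 := by nlinarith
    rw [inv_le_comm₀ (by linarith) (by norm_num)]
    linarith
  calc Real.exp (-y / 40) * ∑ j ∈ range M, x ^ j ≤ Real.exp (-y / 40) * 21 := by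
        gcongr
        exact h6.trans h7
    _ = _ := by ring

/-- the sum near the critical line -/
theorem near_sum {m N : ℕ} (hm : m ≤ 3) {L : (q : ℕ) → DirichletCharacter ℂ q → ℂ → ℂ}
    (h : Fo m N L) : ∃ C : ℝ, 0 ≤ C ∧ ∀ (Q : ℕ) (t H δ : ℝ), 1 ≤ Q → 0 ≤ H → H ≤ 1 →
      16 ≤ δ * (1 + Real.log Q) →
      ∑ i ∈ idx N Q, (nz (L i.1 i.2) (slab δ (1 / 125) t H) : ℝ) ≤
        C * (2 + |t|) ^ (3 * m) * (1 + H * (1 + Real.log Q)) *
          ((Q : ℝ) ^ 2 * Real.exp (-(δ * (1 + Real.log Q)) / 40)) := by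
  classical
  obtain ⟨C, hC, hlayer⟩ := layer_sum hm h
  refine ⟨21 * C, by positivity, ?_⟩
  intro Q t H δ hQ hH0 hH1 hδ16
  have hq1 : (1 : ℝ) ≤ Q := by exact_mod_cast hQ
  have hlq : 0 ≤ Real.log Q := Real.log_nonneg hq1
  set l : ℝ := 1 + Real.log Q with hl
  have hl0 : 0 < l := by linarith
  have hδ0 : 0 < δ := by
    by_contra hcon
    have : δ * l ≤ 0 := mul_nonpos_of_nonpos_of_nonneg (not_lt.1 hcon) hl0.le
    linarith
  obtain ⟨M, hM⟩ : ∃ M : ℕ, 1 / 125 < (9 / 8 : ℝ) ^ M * δ := by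
    obtain ⟨M, hM⟩ := pow_unbounded_of_one_lt (1 / 125 / δ) (by norm_num : (1 : ℝ) < 9 / 8)
    exact ⟨M, by rwa [div_lt_iff₀ hδ0] at hM⟩
  set A : Finset ℕ := (range M).filter fun j => (9 / 8 : ℝ) ^ j * δ ≤ 1 / 125 with hA
  set X : ℝ := C * (2 + |t|) ^ (3 * m) * (1 + H * l) * (Q : ℝ) ^ 2 with hX
  have hX0 : 0 ≤ X := by positivity
  have h1 : ∀ i ∈ idx N Q, (nz (L i.1 i.2) (slab δ (1 / 125) t H) : ℝ) ≤
      ∑ j ∈ A, (nz (L i.1 i.2) (layer ((9 / 8) ^ j * δ) t H) : ℝ) := by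
    intro i hi
    obtain ⟨hd, hne⟩ := fo_mem h hi
    have h2 := nz_cover (F := L i.1 i.2) A (fun j => layer ((9 / 8) ^ j * δ) t H)
      (S := slab δ (1 / 125) t H) (fun j => ?_) (fun s hs _ => ?_)
    · exact_mod_cast h2
    · refine fin_zeros hd (two_ne hne) (w := pt (1 / 2) t)
        (R := 9 / 8 * ((9 / 8) ^ j * δ) + H) fun s hs => ?_
      exact slab_bd (δ := (9 / 8) ^ j * δ) (by positivity) hs
    · obtain ⟨s1, s2, s3⟩ := hs
      obtain ⟨j, hj1, hj2⟩ := exists_nat_pow_near (x := (s.re - 1 / 2) / δ) (y := (9 / 8 : ℝ))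
        (by rwa [le_div_iff₀ hδ0, one_mul]) (by norm_num)
      rw [le_div_iff₀ hδ0] at hj1
      rw [div_lt_iff₀ hδ0] at hj2
      refine ⟨j, ?_, hj1, ?_, s3⟩
      · rw [hA, Finset.mem_filter, Finset.mem_range]
        refine ⟨?_, hj1.trans s2⟩
        by_contra hcon
        have h3 : (9 / 8 : ℝ) ^ M ≤ (9 / 8 : ℝ) ^ j :=
          pow_le_pow_right₀ (by norm_num) (not_lt.1 hcon)
        have h4 := mul_le_mul_of_nonneg_right h3 hδ0.le
        linarith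
      · rw [pow_succ] at hj2
        linarith
  refine (Finset.sum_le_sum h1).trans ?_
  rw [Finset.sum_comm]
  have h2 : ∀ j ∈ A, ∑ i ∈ idx N Q, (nz (L i.1 i.2) (layer ((9 / 8) ^ j * δ) t H) : ℝ) ≤
      X * Real.exp (-((9 / 8) ^ j * (δ * l)) / 40) := by
    intro j hj
    rw [hA, Finset.mem_filter] at hj
    have h3 : (1 : ℝ) ≤ (9 / 8) ^ j := one_le_pow₀ (by norm_num)
    have h4 : δ * l ≤ (9 / 8 : ℝ) ^ j * (δ * l) := le_mul_of_one_le_left (by positivity) h3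
    refine (hlayer Q t H ((9 / 8) ^ j * δ) hQ hH0 hH1 (by rw [mul_assoc]; linarith) hj.2).trans
      (le_of_eq ?_)
    rw [hX, mul_assoc ((9 / 8 : ℝ) ^ j) δ l]
    ring
  refine (Finset.sum_le_sum h2).trans ?_
  rw [← Finset.mul_sum]
  have h3 : ∑ j ∈ A, Real.exp (-((9 / 8) ^ j * (δ * l)) / 40) ≤
      ∑ j ∈ range M, Real.exp (-((9 / 8) ^ j * (δ * l)) / 40) :=
    Finset.sum_le_sum_of_subset_of_nonneg (Finset.filter_subset _ _) fun _ _ _ =>
      (Real.exp_pos _).le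
  calc X * ∑ j ∈ A, Real.exp (-((9 / 8) ^ j * (δ * l)) / 40)
      ≤ X * (21 * Real.exp (-(δ * l) / 40)) := by
        refine mul_le_mul_of_nonneg_left (h3.trans (geo_sum hδ16 M)) hX0
    _ = _ := by rw [hX]; ring

end Pool.Agent.KS6_85.SD
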