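import Pool.Agent.KS6_85.SD.Main
import Pool.Graph.R_seed8.W388.TW.Parts

/-!
# The twists of a newform as a family
-/

set_option autoImplicit false

namespace Pool.Agent.KS6_85.SD

open Finset Filter Topology Complex MeasureTheory
open Pool.Agent.R399.TW Pool.Agent.R399.TM
open Pool.Agent.Y767.CA (GGc FEc cj Gd LX GGc_ne conj_GGc summable_lin fe_asym)
open ArithmeticFunction (vonMangoldt)
open UpperHalfPlane MatrixGroups CongruenceSubgroup
open W388 (cS HeckeSeq RSLim lamf IsNewf GG FE2)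
open scoped ComplexConjugate

/-! ### the sum of the squares -/

/-- the Rankin–Selberg limit for the coefficients of the logarithmic derivative -/
theorem sq_lim {N : ℕ} {lam : ℕ → ℝ} (HS : HeckeSeq N lam) (HR : RSLim lam) :
    (∀ σ : ℝ, 0 < σ → Summable (fun n : ℕ => vonMangoldt n * cS N lam n ^ 2 *
      (n : ℝ) ^ (-(1 + σ)))) ∧
    Tendsto (fun σ : ℝ => σ * ∑' n : ℕ, vonMangoldt n * cS N lam n ^ 2 * (n : ℝ) ^ (-(1 + σ)))
      (𝓝[>] 0) (𝓝 1) := by
  obtain ⟨hR1, κ, hκ, hR2⟩ := HR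
  set b : ℕ → ℝ := fun n => ArithmeticFunction.vonMangoldt n * W388.cS N lam n ^ 2 with hb
  have hl2 : W688.TW.Good (fun n => lam n ^ 2) := hR1
  have hprod : ∀ σ : ℝ, 0 < σ → Summable (fun n : ℕ => W388.AA N lam n * (n : ℝ) ^ (-(1 + σ))) ∧
      W688.TW.RS (W388.AA N lam) σ =
        W688.TW.RS (W688.TW.sq N) σ * W688.TW.RS (fun n => lam n ^ 2) σ := fun σ hσ =>
    W688.TW.RS_conv (f := W688.TW.sq N) (g := fun n => lam n ^ 2) (W688.TW.AA_conv N lam)
      (by linarith) (W688.TW.sq_good hσ.le) (hl2 σ hσ)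
  have H : W688.TW.Dat (W388.AA N lam) b := by
    refine ⟨fun n => ?_, fun n => ?_, ?_, ?_, fun n => ?_, fun σ hσ => (hprod σ hσ).1⟩
    · exact Finset.sum_nonneg fun m _ => sq_nonneg _
    · exact mul_nonneg ArithmeticFunction.vonMangoldt_nonneg (sq_nonneg _)
    · simp [hb]
    · unfold W388.AA
      simp [Finset.filter_singleton, HS.one]
    · rcases Nat.eq_zero_or_pos n with rfl | hn
      · simp
      · rw [mul_comm, Pool.Agent.W482.TW.t_id2 N lam HS n hn.ne', Nat.sum_divisorsAntidiagonal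
          (fun d e => b d * W388.AA N lam e)]
  have hDlim : Tendsto (fun σ => σ * W688.TW.RS (W388.AA N lam) σ) (𝓝[>] 0)
      (𝓝 (W688.TW.RS (W688.TW.sq N) 0 * κ)) := by
    refine ((W688.TW.sq_tendsto N).mul hR2).congr' ?_
    filter_upwards [self_mem_nhdsWithin] with σ hσ
    rw [(hprod σ hσ).2]
    show W688.TW.RS (W688.TW.sq N) σ * (σ * W688.TW.RS (fun n => lam n ^ 2) σ) = _
    ring
  have hκ' : 0 < W688.TW.RS (W688.TW.sq N) 0 * κ := mul_pos (W688.TW.sq_pos N) hκ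
  exact ⟨H.bgood, H.lim hκ' hDlim⟩

/-- the coefficients of the logarithmic derivative -/
noncomputable def cc (N : ℕ) (lam : ℕ → ℝ) (n : ℕ) : ℂ := (cS N lam n : ℂ)

lemma norm_cc (N : ℕ) (lam : ℕ → ℝ) (n : ℕ) : ‖cc N lam n‖ ^ 2 = cS N lam n ^ 2 := by
  unfold cc
  rw [Complex.norm_real, Real.norm_eq_abs, sq_abs]

lemma sq_summ {N : ℕ} {lam : ℕ → ℝ} (HS : HeckeSeq N lam) (HR : RSLim lam) {σ : ℝ}
    (hσ : 1 < σ) : Summable fun n : ℕ => vonMangoldt n * ‖cc N lam n‖ ^ 2 * (n : ℝ) ^ (-σ) := by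
  have h := (sq_lim HS HR).1 (σ - 1) (by linarith)
  simp only [norm_cc]
  rw [show -(1 + (σ - 1)) = -σ by ring] at h
  exact h

lemma sqb_cc {N : ℕ} {lam : ℕ → ℝ} (HS : HeckeSeq N lam) (HR : RSLim lam) :
    ∃ C : ℝ, Sqb (cc N lam) C := by
  refine sqb_of_lim (fun σ hσ => sq_summ HS HR hσ) ?_
  have h := (sq_lim HS HR).2
  have ht : Tendsto (fun σ : ℝ => σ - 1) (𝓝[>] 1) (𝓝[>] 0) := by
    rw [tendsto_nhdsWithin_iff]
    constructor
    · have : Tendsto (fun σ : ℝ => σ - 1) (𝓝 1) (𝓝 (1 - 1)) :=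
        (continuous_id.sub continuous_const).tendsto 1
      rw [sub_self] at this
      exact this.mono_left nhdsWithin_le_nhds
    · filter_upwards [self_mem_nhdsWithin] with σ hσ
      exact sub_pos.2 (show (1 : ℝ) < σ from hσ)
  refine (h.comp ht).congr fun σ => ?_
  simp only [Function.comp, norm_cc]
  rw [show -(1 + (σ - 1)) = -σ by ring]

lemma lin_cc {N : ℕ} {lam : ℕ → ℝ} (HS : HeckeSeq N lam) (HR : RSLim lam) : Lin (cc N lam) :=
  fun _ hσ => summable_lin (fun _ hσ => sq_summ HS HR hσ) hσ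

/-- the coefficients -/
lemma E_cc {N : ℕ} {lam : ℕ → ℝ} (HS : HeckeSeq N lam) (n : ℕ) :
    (lam n : ℂ) = E (cc N lam) n := by
  refine E_unique (cc N lam) (f := fun n => (lam n : ℂ)) (by simp [HS.zero]) (by simp [HS.one])
    (fun n => ?_) n
  rcases Nat.eq_zero_or_pos n with rfl | hn
  · simp
  · have h := Pool.Agent.W482.TW.t_id1 N lam HS n hn.ne'
    have h3 : ∑ p ∈ n.divisorsAntidiagonal, ((vonMangoldt p.1 : ℝ) : ℂ) * cc N lam p.1 *
        (lam p.2 : ℂ) = ∑ d ∈ n.divisors, ((vonMangoldt d : ℝ) : ℂ) * cc N lam d *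
        (lam (n / d) : ℂ) := Nat.sum_divisorsAntidiagonal
      (fun d e => ((vonMangoldt d : ℝ) : ℂ) * cc N lam d * (lam e : ℂ))
    have h2 := congrArg (fun x : ℝ => (x : ℂ)) h
    push_cast at h2
    refine Eq.trans ?_ (Eq.trans h2 h3.symm)
    show (lam n : ℂ) * ((Real.log n : ℝ) : ℂ) = _
    rw [Complex.natCast_log]

/-! ### the functional equation -/

/-- the parameters -/
noncomputable def muk (k : ℤ) : Fin 2 → ℂ := ![((k : ℂ) - 1) / 2, ((k : ℂ) - 1) / 2 + 1]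

lemma muk_eq (k : ℤ) (i : Fin 2) : ∃ x : ℝ, muk k i = (x : ℂ) ∧ ((k : ℝ) - 1) / 2 ≤ x ∧
    x ≤ ((k : ℝ) - 1) / 2 + 1 := by
  fin_cases i
  · exact ⟨((k : ℝ) - 1) / 2, by simp [muk], le_rfl, by linarith⟩
  · exact ⟨((k : ℝ) - 1) / 2 + 1, by simp [muk], by linarith, le_rfl⟩

lemma muk_im (k : ℤ) (i : Fin 2) : (muk k i).im = 0 := by
  obtain ⟨x, hx, -⟩ := muk_eq k i
  rw [hx, Complex.ofReal_im]

/-- the constant -/
noncomputable def Ck (k : ℤ) : ℝ := 2 * (2 * Real.pi) ^ (-(((k : ℝ) - 1) / 2))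

lemma Ck_pos (k : ℤ) : 0 < Ck k := by
  have := Real.pi_pos
  unfold Ck
  positivity

lemma ggc_muk {k : ℤ} {N q : ℝ} (hN : 0 < N) (hq : 0 < q) (s : ℂ) :
    GGc (N * q ^ 2) (muk k) s = (Ck k : ℂ) * GG k N q s := by
  have hpi := Real.pi_pos
  set R : ℝ := Real.sqrt N * q with hR
  have hR0 : 0 < R := by positivity
  have hR2 : N * q ^ 2 = R ^ 2 := by rw [hR, mul_pow, Real.sq_sqrt hN.le]
  set κ : ℂ := ((k : ℂ) - 1) / 2 with hκ
  have hκr : κ = (((k : ℝ) - 1) / 2 : ℝ) := by rw [hκ]; push_cast; ring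
  unfold GGc W388.GG muk
  rw [Fin.prod_univ_two]
  simp only [Matrix.cons_val_zero, Matrix.cons_val_one]
  rw [← hκ, ← add_assoc, Complex.Gammaℝ_mul_Gammaℝ_add_one, Complex.Gammaℂ_def, hR2]
  have h1 : ((R ^ 2 : ℝ) : ℂ) ^ (s / 2) = (R : ℂ) ^ s := by
    rw [Complex.ofReal_pow, ← Complex.cpow_nat_mul' ?_ ?_]
    · congr 1
      push_cast
      ring
    · rw [Complex.arg_ofReal_of_nonneg hR0.le]
      simp [Real.pi_pos]
    · rw [Complex.arg_ofReal_of_nonneg hR0.le]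
      simp [Real.pi_pos.le]
  have h2 : ((R / (2 * Real.pi) : ℝ) : ℂ) ^ s = (R : ℂ) ^ s * (2 * (Real.pi : ℂ)) ^ (-s) := by
    have h3 : ((R / (2 * Real.pi) : ℝ) : ℂ) = (R : ℂ) * (((2 * Real.pi)⁻¹ : ℝ) : ℂ) := by
      rw [div_eq_mul_inv]
      push_cast
      ring
    rw [h3, Complex.mul_cpow_ofReal_nonneg hR0.le (by positivity)]
    congr 1
    rw [Complex.ofReal_inv, Complex.inv_cpow, Complex.cpow_neg]
    · push_cast
      rfl
    · rw [Complex.arg_ofReal_of_nonneg (by positivity)]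
      exact Real.pi_pos.ne
  have h2pi : (2 * (Real.pi : ℂ)) ≠ 0 := by
    have : (Real.pi : ℂ) ≠ 0 := by exact_mod_cast hpi.ne'
    simpa using this
  have h3 : (2 * (Real.pi : ℂ)) ^ (-(s + κ)) =
      (2 * (Real.pi : ℂ)) ^ (-s) * (2 * (Real.pi : ℂ)) ^ (-κ) := by
    rw [← Complex.cpow_add _ _ h2pi]
    congr 1
    ring
  have h4 : (Ck k : ℂ) = 2 * (2 * (Real.pi : ℂ)) ^ (-κ) := by
    unfold Ck
    rw [hκr]
    push_cast
    rw [Complex.ofReal_cpow (by positivity)]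
    push_cast
    rfl
  rw [h1, h2, h3, h4]
  ring

lemma fec_of_fe2k {k : ℤ} {N q : ℝ} (hN : 0 < N) (hq : 0 < q) {F : ℂ → ℂ}
    (h : FE2 k N q F) : FEc (N * q ^ 2) (muk k) F where
  diff := h.diff
  fe := by
    obtain ⟨w, hw, hfe⟩ := h.fe
    refine ⟨w, hw, fun s hs => ?_⟩
    have h0 : s.im ≠ 0 := by
      have := hs 0
      rwa [muk_im, add_zero] at this
    have h1 := hfe s h0
    rw [ggc_muk hN hq, ggc_muk hN hq, mul_assoc, h1, mul_assoc (Ck k : ℂ),
      map_mul (starRingEnd ℂ) (Ck k : ℂ), Complex.conj_ofReal]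
    ring
  vert := by
    intro a b
    obtain ⟨C, hC⟩ := h.vert a b
    refine ⟨Ck k * C, fun s h1 h2 h3 => ?_⟩
    have h4 : 1 ≤ |s.im| := by
      have := h3 0
      rwa [muk_im, add_zero] at this
    have h5 := hC s h1 h2 h4
    rw [ggc_muk hN hq, mul_assoc, norm_mul, Complex.norm_real,
      Real.norm_of_nonneg (Ck_pos k).le]
    exact mul_le_mul_of_nonneg_left h5 (Ck_pos k).le

/-- the orders of zeros are symmetric -/
theorem refl_ord {κ : Type} [Fintype κ] {R : ℝ} (hR : 0 < R) {μ : κ → ℂ} (hμ : ∀ i, 0 ≤ (μ i).re)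
    {F : ℂ → ℂ} (hF : FEc R μ F) {s : ℂ} (h0 : 0 < s.re) (h1 : s.re < 1 / 2) :
    analyticOrderAt F s = analyticOrderAt F (1 - conj s) := by
  obtain ⟨w, hw, hfe⟩ := fe_asym hR hF
  have hw0 : w ≠ 0 := fun h => by rw [h, norm_zero] at hw; exact zero_ne_one hw
  have hRc : (R : ℂ) ≠ 0 := ofReal_ne_zero.mpr hR.ne'
  have hμ' : ∀ i, -1 / 2 < (μ i).re := fun i => by linarith [hμ i]
  have hLX : ∀ z : ℂ, LX w R μ z = w * GGc R (cj μ) (1 - z) * (GGc R μ z)⁻¹ := fun z => by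
    unfold LX
    rw [div_eq_mul_inv]
  have hLXd : ∀ z : ℂ, z.re < 1 / 2 → DifferentiableAt ℂ (LX w R μ) z := by
    intro z hz
    have : LX w R μ = fun z => w * GGc R (cj μ) (1 - z) * (GGc R μ z)⁻¹ := funext hLX
    rw [this]
    exact ((GG1_diff hR hμ' hz.le).const_mul w).mul (GGi_diff hR μ z)
  -- the equation at `s`
  have key : ∀ z : ℂ, z.re < 1 / 2 → F z = LX w R μ z * rfl1 F z := by
    intro z hz
    have hcl : Continuous fun t : ℝ => z + (t : ℂ) * Complex.I := by fun_prop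
    have t0 : Tendsto (fun t : ℝ => z + (t : ℂ) * Complex.I) (𝓝[≠] 0) (𝓝 z) := by
      have := hcl.tendsto 0
      simp only [ofReal_zero, zero_mul, add_zero] at this
      exact this.mono_left nhdsWithin_le_nhds
    have t1 : Tendsto (fun t : ℝ => F (z + (t : ℂ) * Complex.I)) (𝓝[≠] 0) (𝓝 (F z)) :=
      (hF.diff.continuous.tendsto z).comp t0
    have t2 : Tendsto (fun t : ℝ => LX w R μ (z + (t : ℂ) * Complex.I) * rfl1 F (z + (t : ℂ) * Complex.I))
        (𝓝[≠] 0) (𝓝 (LX w R μ z * rfl1 F z)) :=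
      ((hLXd z hz).continuousAt.tendsto.comp t0).mul
        (((rfl1_diff hF.diff).continuous.tendsto z).comp t0)
    refine tendsto_nhds_unique t1 (t2.congr' ?_)
    have hfin : ∀ᶠ t in 𝓝[≠] (0 : ℝ), ∀ i, t ≠ -(z.im + (μ i).im) := by
      rw [Filter.eventually_all]
      intro i
      rcases eq_or_ne (-(z.im + (μ i).im)) 0 with h | h
      · rw [h]
        exact self_mem_nhdsWithin
      · exact nhdsWithin_le_nhds (isOpen_ne.mem_nhds (Ne.symm h))
    filter_upwards [hfin] with t ht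
    refine (hfe _ fun i h => ht i ?_).symm
    simp at h
    linarith
  have hne : LX w R μ s ≠ 0 := by
    rw [hLX]
    have hg : ∀ z : ℂ, 0 < z.re → Gammaℝ z ≠ 0 := fun z hz => Gammaℝ_ne_zero_of_re_pos hz
    refine mul_ne_zero (mul_ne_zero hw0 ?_) (inv_ne_zero ?_)
    · unfold GGc
      refine mul_ne_zero (Complex.cpow_ne_zero_iff.2 (Or.inl hRc))
        (Finset.prod_ne_zero_iff.2 fun i _ => hg _ ?_)
      simp only [cj, add_re, sub_re, one_re, conj_re]
      linarith [hμ i]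
    · unfold GGc
      refine mul_ne_zero (Complex.cpow_ne_zero_iff.2 (Or.inl hRc))
        (Finset.prod_ne_zero_iff.2 fun i _ => hg _ ?_)
      rw [add_re]
      linarith [hμ i]
  have hopen : {z : ℂ | z.re < 1 / 2} ∈ 𝓝 s :=
    (isOpen_lt Complex.continuous_re continuous_const).mem_nhds h1
  have hev : F =ᶠ[𝓝 s] fun z => LX w R μ z * rfl1 F z := by
    filter_upwards [hopen] with z hz
    exact key z hz
  have hLXa : AnalyticAt ℂ (LX w R μ) s := by
    rw [analyticAt_iff_eventually_differentiableAt]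
    filter_upwards [hopen] with z hz
    exact hLXd z hz
  have hra : AnalyticAt ℂ (rfl1 F) s := (rfl1_diff hF.diff).analyticAt s
  have hrefl : analyticOrderAt (rfl1 F) s = analyticOrderAt F (1 - conj s) :=
    H370.DL.order_refl (hF.diff.analyticAt _)
  have h2 : analyticOrderAt (fun z => LX w R μ z * rfl1 F z) s =
      analyticOrderAt (LX w R μ) s + analyticOrderAt (rfl1 F) s := analyticOrderAt_mul hLXa hra
  rw [analyticOrderAt_congr hev, h2, hLXa.analyticOrderAt_eq_zero.2 hne, zero_add, hrefl]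

/-! ### the family -/

/-- **the twists of a newform of weight `k ≥ 1` and trivial character** -/
theorem newf_fam {N : ℕ} [NeZero N] {k : ℤ} (hk : 1 ≤ k)
    {f : CuspForm (Gamma0 N : Subgroup (GL (Fin 2) ℝ)) k} {ε : ℝ} (hf : IsNewf N k f ε) :
    ∃ L : (q : ℕ) → DirichletCharacter ℂ q → ℂ → ℂ, Fo 2 N L ∧ Fm 2 N L ∧
      ∀ (q : ℕ) (χ : DirichletCharacter ℂ q), 1 ≤ q → Nat.Coprime q N → χ.IsPrimitive →
        Differentiable ℂ (L q χ) ∧
        (∀ s : ℂ, 1 < s.re →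
          HasProd (fun p : Nat.Primes =>
            (1 - χ ((p : ℕ) : ZMod q) * (lamf f p : ℂ) * ((p : ℕ) : ℂ) ^ (-s) +
              (if (p : ℕ) ∣ N then 0 else
                χ ((p : ℕ) : ZMod q) ^ 2 * ((p : ℕ) : ℂ) ^ (-2 * s)))⁻¹) (L q χ s)) ∧
        ∀ s : ℂ, 0 < s.re → s.re < 1 / 2 →
          analyticOrderAt (L q χ) s = analyticOrderAt (L q χ) (1 - conj s) := by
  have hN : 0 < N := Nat.pos_of_ne_zero (NeZero.ne N)
  have hN0 : (0 : ℝ) < N := by exact_mod_cast hN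
  have hH := W388.heckeSeq_lamf hf
  have hR := W388.p_rs N k hk f ε hf
  obtain ⟨A1, hA1, d1, d2, d3⟩ := W388.p_dir N hN (lamf f) hH hR
  have hsum : ∀ (q : ℕ) [NeZero q] (χ : DirichletCharacter ℂ q) (s : ℂ), 1 < s.re →
      Summable (fun n : ℕ => ‖χ (n : ZMod q) * (lamf f n : ℂ) * (n : ℂ) ^ (-s)‖) := by
    intro q _ χ s hs
    exact (d3 q χ (fun s => ∑' n : ℕ, χ (n : ZMod q) * (lamf f n : ℂ) * (n : ℂ) ^ (-s))
      (fun _ _ => rfl)).1 s hs
  classical
  have hex : ∀ (q : ℕ) (χ : DirichletCharacter ℂ q), ∃ F : ℂ → ℂ,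
      (1 ≤ q → Nat.Coprime q N → χ.IsPrimitive → FE2 k N q F ∧ ∀ s : ℂ, 1 < s.re →
      F s = ∑' n : ℕ, χ (n : ZMod q) * (lamf f n : ℂ) * (n : ℂ) ^ (-s)) := by
    intro q χ
    by_cases h : 1 ≤ q ∧ Nat.Coprime q N ∧ χ.IsPrimitive
    · obtain ⟨h1, h2, h3⟩ := h
      have : NeZero q := ⟨by omega⟩
      obtain ⟨F, hF⟩ := W388.exists_twist Pool.Agent.W440.TW.t_twist Pool.Agent.W108.TW.t_mellin
        hk hf hsum q χ h3 h2
      exact ⟨F, fun _ _ _ => hF⟩
    · exact ⟨fun _ => 0, fun h1 h2 h3 => absurd ⟨h1, h2, h3⟩ h⟩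
  choose F hF using hex
  set c : ℕ → ℂ := cc N (lamf f) with hc
  have hLin : Lin c := lin_cc hH hR
  obtain ⟨C, hC⟩ := sqb_cc hH hR
  have hk0 : (0 : ℝ) ≤ ((k : ℝ) - 1) / 2 := by
    have : (1 : ℝ) ≤ k := by exact_mod_cast hk
    linarith
  set V : ℝ := ((k : ℝ) - 1) / 2 + 4 with hV
  have hμ0 : ∀ i, 0 ≤ (muk k i).re := fun i => by
    obtain ⟨x, hx, h1, h2⟩ := muk_eq k i
    rw [hx, Complex.ofReal_re]
    linarith
  have hfec : ∀ (q : ℕ) (χ : DirichletCharacter ℂ q), 1 ≤ q → Nat.Coprime q N → χ.IsPrimitive →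
      FEc ((N : ℝ) * (q : ℝ) ^ 2) (muk k) (F q χ) := by
    intro q χ hq hqN hχ
    have hq0 : (0 : ℝ) < q := by exact_mod_cast hq
    exact fec_of_fe2k hN0 hq0 (hF q χ hq hqN hχ).1
  have hmem : ∀ (q : ℕ) (χ : DirichletCharacter ℂ q), 2 ≤ q → Nat.Coprime q N → χ.IsPrimitive →
      Mem c ((N : ℝ) * (q : ℝ) ^ 2) (3 * (1 + V)) 2 (chs χ) (F q χ) := by
    intro q χ hq hqN hχ
    have hq0 : (0 : ℝ) < q := by
      have : 0 < q := by omega
      exact_mod_cast this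
    obtain ⟨hfe2, hser⟩ := hF q χ (by omega) hqN hχ
    have hser2 : ∀ s : ℂ, 1 < s.re → F q χ s = LSeries (tw (chs χ) (E c)) s := by
      intro s hs
      rw [hser s hs]
      unfold LSeries
      refine tsum_congr fun n => ?_
      rcases Nat.eq_zero_or_pos n with rfl | hn
      · rw [hH.zero]
        simp
      · rw [LSeries.term_of_ne_zero hn.ne', Complex.cpow_neg, ← div_eq_mul_inv]
        unfold tw chs
        rw [hc, ← E_cc hH n]
    have h3 := mem_of_fec (κ := Fin 2) (R := (N : ℝ) * (q : ℝ) ^ 2) (V := V) (by positivity)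
      (μ := muk k) (fun i => by linarith [hμ0 i])
      (fun i => by
        obtain ⟨x, hx, h1, h2⟩ := muk_eq k i
        rw [hx, Complex.norm_real, Real.norm_of_nonneg (by linarith), hV]
        linarith) (by rw [hV]; linarith) (hfec q χ (by omega) hqN hχ)
      (c := c) (ψ := chs χ) hLin (chs_mul χ) (chs_one χ) (chs_le χ) hser2
    rw [Fintype.card_fin] at h3
    exact h3
  refine ⟨F, ?_, ?_, ?_⟩
  · refine ⟨c, N, 3 * (1 + V), C, hN0.le, by rw [hV]; linarith, hLin, hC, ?_⟩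
    intro q χ hq hqN hχ
    exact ⟨(hF q χ (by omega) hqN hχ).1.diff, F q χ, hmem q χ hq hqN hχ, fun _ => 1,
      differentiable_const _, fun s => by rw [mul_one]⟩
  · refine ⟨c, N, 3 * (1 + V), C, hN0.le, by rw [hV]; linarith, hLin, hC, ?_⟩
    intro q χ hq hqN hχ
    have hq0 : (0 : ℝ) < q := by
      have : 0 < q := by omega
      exact_mod_cast this
    exact ⟨F q χ, hmem q χ hq hqN hχ, fun s _ h => h,
      fun s h0 h1 hs => refl_zero (by positivity) hμ0 (hfec q χ (by omega) hqN hχ) h0 h1 hs⟩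
  · intro q χ hq hqN hχ
    have : NeZero q := ⟨by omega⟩
    have hq0 : (0 : ℝ) < q := by exact_mod_cast hq
    obtain ⟨hfe2, hser⟩ := hF q χ hq hqN hχ
    exact ⟨hfe2.diff, (d3 q χ (F q χ) hser).2.2.2.2.2,
      fun s h0 h1 => refl_ord (by positivity) hμ0 (hfec q χ hq hqN hχ) h0 h1⟩

end Pool.Agent.KS6_85.SD
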