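import Pool.Graph.R_pool_sql_team_seeded_3dad9d7b.NH12.BA.Near2
import Pool.Graph.R_pool_sql_team_seeded_3dad9d7b.NH12.BA.Fam2

/-!
# Zeros of an entire function in bounded sets, with multiplicity
-/

set_option autoImplicit false

namespace Pool.Agent.KS6_85.SD

open Finset Filter Topology Complex MeasureTheory
open Pool.Agent.R399.TW Pool.Agent.R399.TM Pool.Agent.NH12.BA
open scoped ComplexConjugate

/-- finitely many zeros in a bounded set -/
lemma fin_zeros {F : ℂ → ℂ} (hF : Differentiable ℂ F) {s₀ : ℂ} (h0 : F s₀ ≠ 0) {w : ℂ} {R : ℝ}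
    {S : Set ℂ} (hS : ∀ s ∈ S, ‖s - w‖ ≤ R) : {s : ℂ | s ∈ S ∧ F s = 0}.Finite := by
  by_contra hinf
  have hinf : {s : ℂ | s ∈ S ∧ F s = 0}.Infinite := hinf
  have hcomp : IsCompact (Metric.closedBall w R) := isCompact_closedBall w R
  have hsub : {s : ℂ | s ∈ S ∧ F s = 0} ⊆ Metric.closedBall w R := by
    rintro s ⟨h1, -⟩
    rw [Metric.mem_closedBall, dist_eq_norm]
    exact hS s h1
  obtain ⟨x, -, hacc⟩ := hinf.exists_accPt_of_subset_isCompact hcomp hsub
  have hfreq : ∃ᶠ z in 𝓝[≠] x, F z = 0 := by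
    rw [accPt_iff_frequently_nhdsNE] at hacc
    exact hacc.mono fun z hz => hz.2
  have hz := AnalyticOnNhd.eqOn_zero_of_preconnected_of_frequently_eq_zero
    (f := F) (U := Set.univ) (fun s _ => hF.analyticAt s) isPreconnected_univ (Set.mem_univ x)
    hfreq
  exact h0 (hz (Set.mem_univ s₀))

/-- finite orders -/
lemma ord_ne_top {F : ℂ → ℂ} (hF : Differentiable ℂ F) {s₀ : ℂ} (h0 : F s₀ ≠ 0) (s : ℂ) :
    analyticOrderAt F s ≠ ⊤ := by
  intro htop
  rw [analyticOrderAt_eq_top] at htop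
  have h1 : F = fun _ => 0 := by
    refine AnalyticOnNhd.eq_of_eventuallyEq (z₀ := s) (fun z _ => hF.analyticAt z)
      (fun z _ => analyticAt_const) ?_
    exact htop
  exact h0 (by rw [h1])

/-- the zeros in a finite set can be divided out -/
theorem dv_finset {F : ℂ → ℂ} (hF : Differentiable ℂ F) {s₀ : ℂ} (h0 : F s₀ ≠ 0) (w : ℂ) (r : ℝ)
    (Z : Finset ℂ) : (∀ z ∈ Z, ‖z - w‖ ≤ r) →
    ∃ (z : ℕ → ℂ) (H : ℂ → ℂ), Differentiable ℂ H ∧
      (∀ j < ∑ z ∈ Z, analyticOrderNatAt F z, ‖z j - w‖ ≤ r) ∧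
      (∀ s, F s = (∏ j ∈ range (∑ z ∈ Z, analyticOrderNatAt F z), (s - z j)) * H s) ∧
      ∀ s ∉ Z, analyticOrderAt H s = analyticOrderAt F s := by
  classical
  induction Z using Finset.induction_on with
  | empty =>
    intro _
    exact ⟨fun _ => 0, F, hF, fun j hj => by simp at hj, fun s => by simp, fun s _ => rfl⟩
  | insert a Z ha ih =>
    intro hZ
    obtain ⟨z, H, hH, hz, hFH, hord⟩ := ih fun x hx => hZ x (Finset.mem_insert_of_mem hx)
    set k := ∑ z ∈ Z, analyticOrderNatAt F z with hk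
    set n := analyticOrderNatAt F a with hn
    have h1 : (n : ℕ∞) = analyticOrderAt F a := Nat.cast_analyticOrderNatAt (ord_ne_top hF h0 a)
    obtain ⟨G, hG, hHG⟩ := fact hH (z₀ := a) n (by rw [h1, hord a ha])
    have hsum : ∑ z ∈ insert a Z, analyticOrderNatAt F z = k + n := by
      rw [Finset.sum_insert ha]
      omega
    rw [hsum]
    refine ⟨fun j => if j < k then z j else a, G, hG, fun j hj => ?_, fun s => ?_, fun s hs => ?_⟩
    · by_cases hjk : j < k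
      · simp only [hjk, if_true]
        exact hz j hjk
      · simp only [hjk, if_false]
        exact hZ a (Finset.mem_insert_self a Z)
    · rw [hFH s, hHG s, Finset.prod_range_add]
      have e1 : ∏ j ∈ range k, (s - if j < k then z j else a) = ∏ j ∈ range k, (s - z j) :=
        Finset.prod_congr rfl fun j hj => by rw [if_pos (Finset.mem_range.1 hj)]
      have e2 : ∏ j ∈ range n, (s - if k + j < k then z (k + j) else a) = (s - a) ^ n := by
        rw [Finset.prod_congr rfl (fun j _ => by rw [if_neg (by omega)]), Finset.prod_const,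
          Finset.card_range]
      rw [e1, e2]
      ring
    · rw [Finset.mem_insert, not_or] at hs
      rw [← hord s hs.2]
      have hpa : AnalyticAt ℂ (fun z : ℂ => (z - a) ^ n) s := by fun_prop
      have h2 : analyticOrderAt H s = analyticOrderAt (fun z : ℂ => (z - a) ^ n) s +
          analyticOrderAt G s := by
        rw [← analyticOrderAt_mul hpa (hG.analyticAt s)]
        congr 1
        funext z
        exact hHG z
      have h3 : analyticOrderAt (fun z : ℂ => (z - a) ^ n) s = 0 := by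
        rw [hpa.analyticOrderAt_eq_zero]
        exact pow_ne_zero _ (sub_ne_zero.2 hs.1)
      rw [h2, h3, zero_add]

/-- the number of zeros in a set, counted with multiplicity -/
noncomputable def nz (F : ℂ → ℂ) (S : Set ℂ) : ℕ :=
  ∑ᶠ s ∈ {s : ℂ | s ∈ S ∧ F s = 0}, analyticOrderNatAt F s

lemma nz_eq {F : ℂ → ℂ} {S : Set ℂ} (h : {s : ℂ | s ∈ S ∧ F s = 0}.Finite) :
    nz F S = ∑ s ∈ h.toFinset, analyticOrderNatAt F s := by
  unfold nz
  rw [finsum_mem_eq_finite_toFinset_sum _ h]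

/-- many zeros in a disc -/
theorem dv_nz {F : ℂ → ℂ} (hF : Differentiable ℂ F) {s₀ : ℂ} (h0 : F s₀ ≠ 0) {w : ℂ} {r : ℝ}
    {S : Set ℂ} (hS : ∀ s ∈ S, ‖s - w‖ ≤ r) : Dv F (nz F S) w r := by
  have hfin := fin_zeros hF h0 hS
  obtain ⟨z, H, h1, h2, h3, -⟩ := dv_finset hF h0 w r hfin.toFinset fun x hx => by
    rw [Set.Finite.mem_toFinset] at hx
    exact hS x hx.1
  rw [nz_eq hfin]
  exact ⟨z, H, h1, h2, h3⟩

/-- a zero in a set -/
lemma exists_of_nz {F : ℂ → ℂ} {S : Set ℂ} (h : 1 ≤ nz F S) : ∃ s ∈ S, F s = 0 := by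
  by_contra hcon
  push Not at hcon
  have h1 : {s : ℂ | s ∈ S ∧ F s = 0} = ∅ := by
    ext s
    simp only [Set.mem_ofPred_eq, Set.mem_empty_iff_false, iff_false, not_and]
    exact hcon s
  unfold nz at h
  rw [h1] at h
  simp at h

/-- covering -/
theorem nz_cover {F : ℂ → ℂ} {ι : Type}
    (A : Finset ι) (T : ι → Set ℂ) {S : Set ℂ}
    (hfa : ∀ a, {s : ℂ | s ∈ T a ∧ F s = 0}.Finite)
    (hcov : ∀ s ∈ S, F s = 0 → ∃ a ∈ A, s ∈ T a) :
    nz F S ≤ ∑ a ∈ A, nz F (T a) := by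
  classical
  have hfin : {s : ℂ | s ∈ S ∧ F s = 0}.Finite := by
    refine Set.Finite.subset (Set.Finite.biUnion A.finite_toSet fun a _ => hfa a) ?_
    rintro s ⟨h1, h2⟩
    obtain ⟨a, ha, hsa⟩ := hcov s h1 h2
    rw [Set.mem_iUnion₂]
    exact ⟨a, ha, hsa, h2⟩
  rw [nz_eq hfin]
  have h1 : ∀ a ∈ A, nz F (T a) =
      ∑ s ∈ (hfa a).toFinset, analyticOrderNatAt F s := fun a _ => nz_eq (hfa a)
  rw [Finset.sum_congr rfl h1]
  set f : ℂ → ℕ := fun s => analyticOrderNatAt F s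
  have hsub : hfin.toFinset ⊆ A.biUnion fun a => (hfa a).toFinset := by
    intro s hs
    rw [Set.Finite.mem_toFinset] at hs
    obtain ⟨a, ha, hsa⟩ := hcov s hs.1 hs.2
    rw [Finset.mem_biUnion]
    refine ⟨a, ha, ?_⟩
    rw [Set.Finite.mem_toFinset]
    exact ⟨hsa, hs.2⟩
  calc ∑ s ∈ hfin.toFinset, f s ≤ ∑ s ∈ A.biUnion fun a => (hfa a).toFinset, f s :=
        Finset.sum_le_sum_of_subset hsub
    _ ≤ ∑ s ∈ A.biUnion fun a => (hfa a).toFinset,
        ∑ a ∈ A, (if s ∈ (hfa a).toFinset then f s else 0) := by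
        refine Finset.sum_le_sum fun s hs => ?_
        rw [Finset.mem_biUnion] at hs
        obtain ⟨a, ha, hsa⟩ := hs
        have := Finset.single_le_sum (f := fun a => if s ∈ (hfa a).toFinset then f s else 0)
          (fun _ _ => Nat.zero_le _) ha
        simp only [if_pos hsa] at this
        exact this
    _ = ∑ a ∈ A, ∑ s ∈ A.biUnion fun a => (hfa a).toFinset,
        (if s ∈ (hfa a).toFinset then f s else 0) := Finset.sum_comm
    _ ≤ ∑ a ∈ A, ∑ s ∈ (hfa a).toFinset, f s := by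
        refine Finset.sum_le_sum fun a _ => ?_
        rw [← Finset.sum_filter]
        refine Finset.sum_le_sum_of_subset fun s hs => ?_
        exact (Finset.mem_filter.1 hs).2

/-- covering by discs -/
theorem nz_balls {F : ℂ → ℂ} (hF : Differentiable ℂ F) {s₀ : ℂ} (h0 : F s₀ ≠ 0) {ι : Type}
    (A : Finset ι) (w : ι → ℂ) (r : ι → ℝ) {S : Set ℂ}
    (hcov : ∀ s ∈ S, F s = 0 → ∃ a ∈ A, ‖s - w a‖ ≤ r a) :
    nz F S ≤ ∑ a ∈ A, nz F (Metric.closedBall (w a) (r a)) := by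
  refine nz_cover A (fun a => Metric.closedBall (w a) (r a)) (fun a => ?_) fun s hs hs0 => ?_
  · exact fin_zeros hF h0 fun s hs => by rwa [Metric.mem_closedBall, dist_eq_norm] at hs
  · obtain ⟨a, ha, hsa⟩ := hcov s hs hs0
    exact ⟨a, ha, by rw [Metric.mem_closedBall, dist_eq_norm]; exact hsa⟩

/-- monotonicity -/
lemma nz_mono {F : ℂ → ℂ} (hF : Differentiable ℂ F) {s₀ : ℂ} (h0 : F s₀ ≠ 0) {w : ℂ} {r : ℝ}
    {S S' : Set ℂ} (hS : ∀ s ∈ S', F s = 0 → ‖s - w‖ ≤ r)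
    (h : ∀ s ∈ S, F s = 0 → s ∈ S') : nz F S ≤ nz F S' := by
  have h1 : {s : ℂ | s ∈ S' ∧ F s = 0}.Finite := by
    refine (fin_zeros hF h0 (S := Metric.closedBall w r) (w := w) (R := r) fun s hs => by
      rwa [Metric.mem_closedBall, dist_eq_norm] at hs).subset ?_
    rintro s ⟨hs, hs2⟩
    exact ⟨by rw [Metric.mem_closedBall, dist_eq_norm]; exact hS s hs hs2, hs2⟩
  have h2 : {s : ℂ | s ∈ S ∧ F s = 0}.Finite := h1.subset fun s hs => ⟨h s hs.1 hs.2, hs.2⟩
  rw [nz_eq h1, nz_eq h2]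
  refine Finset.sum_le_sum_of_subset fun s hs => ?_
  rw [Set.Finite.mem_toFinset] at hs ⊢
  exact ⟨h s hs.1 hs.2, hs.2⟩

/-- two parts -/
lemma nz_union {F : ℂ → ℂ} (hF : Differentiable ℂ F) {s₀ : ℂ} (h0 : F s₀ ≠ 0) {w : ℂ} {r : ℝ}
    {S S₁ S₂ : Set ℂ} (hS : ∀ s ∈ S₁ ∪ S₂, F s = 0 → ‖s - w‖ ≤ r)
    (h : ∀ s ∈ S, F s = 0 → s ∈ S₁ ∨ s ∈ S₂) : nz F S ≤ nz F S₁ + nz F S₂ := by
  classical
  have hb : ∀ S' ⊆ S₁ ∪ S₂, {s : ℂ | s ∈ S' ∧ F s = 0}.Finite := by
    intro S' hS'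
    refine (fin_zeros hF h0 (S := Metric.closedBall w r) (w := w) (R := r) fun s hs => by
      rwa [Metric.mem_closedBall, dist_eq_norm] at hs).subset ?_
    rintro s ⟨hs, hs2⟩
    exact ⟨by rw [Metric.mem_closedBall, dist_eq_norm]; exact hS s (hS' hs) hs2, hs2⟩
  have f1 := hb S₁ Set.subset_union_left
  have f2 := hb S₂ Set.subset_union_right
  have f3 : {s : ℂ | s ∈ S ∧ F s = 0}.Finite :=
    (hb (S₁ ∪ S₂) subset_rfl).subset fun s hs => ⟨h s hs.1 hs.2, hs.2⟩
  rw [nz_eq f1, nz_eq f2, nz_eq f3]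
  have hsub : f3.toFinset ⊆ f1.toFinset ∪ f2.toFinset := by
    intro s hs
    rw [Set.Finite.mem_toFinset] at hs
    rw [Finset.mem_union, Set.Finite.mem_toFinset, Set.Finite.mem_toFinset]
    rcases h s hs.1 hs.2 with h1 | h1
    · exact Or.inl ⟨h1, hs.2⟩
    · exact Or.inr ⟨h1, hs.2⟩
  refine (Finset.sum_le_sum_of_subset hsub).trans ?_
  have := Finset.sum_union_inter (s₁ := f1.toFinset) (s₂ := f2.toFinset)
    (f := fun s => analyticOrderNatAt F s)
  omega

end Pool.Agent.KS6_85.SD
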